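import Pool.Agent.KMS.Level
import Pool.Agent.KCV.Slp

/-! Balanced functions that are computed by a quasilinear number of gates. -/

namespace Pool.Agent.KMS

open Finset Pool.Agent.KE Pool.Agent.KMR Pool.Agent.KCV

section
variable {m : ℕ}

/-- the number of forms on level `j` -/
def nf (J j : ℕ) : ℕ := 8 * (2 * J + 3) * 2 ^ J / 2 ^ j

theorem nf_mul {J j : ℕ} (hj : j ≤ J + 1) : 2 ^ j * nf J j = 8 * (2 * J + 3) * 2 ^ J := by
  unfold nf
  refine Nat.mul_div_cancel' ?_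
  have h1 : 2 ^ j ∣ 2 ^ (J + 3) := pow_dvd_pow 2 (by omega)
  have h2 : 8 * (2 * J + 3) * 2 ^ J = 2 ^ (J + 3) * (2 * J + 3) := by rw [pow_add]; ring
  rw [h2]
  exact Dvd.dvd.mul_right h1 _

theorem nf_eq {J j : ℕ} (hj : j ≤ J) : nf J j = 8 * ((2 * J + 3) * 2 ^ (J - j)) := by
  have h := nf_mul (J := J) (j := j) (by omega)
  have h1 : 8 * (2 * J + 3) * 2 ^ J = 2 ^ j * (8 * ((2 * J + 3) * 2 ^ (J - j))) := by
    obtain ⟨d, rfl⟩ : ∃ d, J = j + d := ⟨J - j, by omega⟩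
    rw [Nat.add_sub_cancel_left, pow_add]
    ring
  rw [h1] at h
  exact Nat.eq_of_mul_eq_mul_left (by positivity) h

/-- the indices of the forms, with multiplicities -/
abbrev Ix (J : ℕ) : Type := (j : Fin (J + 2)) × (Fin (2 ^ j.1) × Fin (nf J j.1))

theorem card_Ix (J : ℕ) : Fintype.card (Ix J) = (J + 2) * (8 * (2 * J + 3) * 2 ^ J) := by
  rw [Fintype.card_sigma]
  have h : ∀ j : Fin (J + 2), Fintype.card (Fin (2 ^ j.1) × Fin (nf J j.1)) = 8 * (2 * J + 3) * 2 ^ J := by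
    intro j
    rw [Fintype.card_prod, Fintype.card_fin, Fintype.card_fin]
    exact nf_mul (by omega)
  rw [Finset.sum_congr rfl fun j _ => h j, Finset.sum_const, Finset.card_univ, Fintype.card_fin, smul_eq_mul]

/-- the forms; those of the last level vanish -/
def fam (J : ℕ) (G : ∀ j, Fin (nf J j) → Fin (2 ^ j) → Fin m) (i : Ix J) : Fin m → Bool :=
  if i.1.1 ≤ J then fc (G i.1.1 i.2.2) else fun _ => false

theorem lv_zero (v : Fin m → ZMod 2) : lv (fun _ => false) v = 0 := by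
  unfold lv
  simp [zb]

theorem level_count {J : ℕ} {G : ∀ j, Fin (nf J j) → Fin (2 ^ j) → Fin m} {v : Fin m → ZMod 2} {a : ZMod 2}
    (j : Fin (J + 2)) {c : ℕ} (hc : c ≤ (univ.filter fun b => lv (fam J G ⟨j, ⟨0, by positivity⟩, b⟩) v = a).card) :
    2 ^ j.1 * c ≤ (univ.filter fun i => lv (fam J G i) v = a).card := by
  classical
  have h1 : (univ.filter fun i => lv (fam J G i) v = a).card ≥
      ((univ : Finset (Fin (2 ^ j.1))) ×ˢ
        (univ.filter fun b => lv (fam J G ⟨j, ⟨0, by positivity⟩, b⟩) v = a)).card := by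
    refine Finset.card_le_card_of_injOn (fun p => (⟨j, p⟩ : Ix J)) ?_ ?_
    · intro p hp
      have hp2 := (Finset.mem_filter.1 (Finset.mem_product.1 hp).2).2
      refine Finset.mem_coe.2 (Finset.mem_filter.2 ⟨Finset.mem_univ _, ?_⟩)
      rw [← hp2]
      rfl
    · intro p _ p' _ h
      simpa using h
  rw [Finset.card_product, Finset.card_univ, Fintype.card_fin] at h1
  exact (Nat.mul_le_mul_left _ hc).trans h1

/-- **A spread family of sparse forms.** -/
theorem exists_fam (hm : 1 ≤ m) : ∃ G : ∀ j, Fin (nf (Nat.log 2 m) j) → Fin (2 ^ j) → Fin m,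
    Spread (fam (Nat.log 2 m) G) (16 * (Nat.log 2 m + 2)) := by
  classical
  obtain ⟨J, hJ⟩ : ∃ J, J = Nat.log 2 m := ⟨_, rfl⟩
  rw [← hJ]
  have hJ1 : 2 ^ J ≤ m := by rw [hJ]; exact Nat.pow_log_le_self 2 (by omega)
  have hJ2 : m < 2 ^ (J + 1) := by rw [hJ]; exact Nat.lt_pow_succ_log_self (by norm_num) m
  have : Nonempty (Fin m) := ⟨⟨0, by omega⟩⟩
  have hlev : ∀ j, ∃ G : Fin (nf J j) → Fin (2 ^ j) → Fin m, j ≤ J → ∀ v : Fin m → ZMod 2,
      2 ^ j * wtv v ≤ m → m < 2 * (2 ^ j * wtv v) → nf J j ≤ 16 * of G v := by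
    intro j
    by_cases hj : j ≤ J
    · have h1 : ∃ G : Fin (8 * ((2 * J + 3) * 2 ^ (J - j))) → Fin (2 ^ j) → Fin m, ∀ v : Fin m → ZMod 2,
          2 ^ j * wtv v ≤ m → m < 2 * (2 ^ j * wtv v) → 8 * ((2 * J + 3) * 2 ^ (J - j)) ≤ 16 * of G v := by
        refine exists_level (k := m / 2 ^ j) ?_ ?_ hm
        · have := Nat.lt_div_mul_add (a := m) (b := 2 ^ j) (by positivity)
          rw [mul_add, mul_one, mul_comm]
          exact this
        · have e1 : m / 2 ^ j < 2 ^ (J + 1 - j) := by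
            rw [Nat.div_lt_iff_lt_mul (by positivity), ← pow_add]
            rw [show J + 1 - j + j = J + 1 by omega]
            exact hJ2
          have e2 : (m + 1) ^ (m / 2 ^ j) ≤ (2 ^ (J + 1)) ^ (2 ^ (J + 1 - j)) :=
            (Nat.pow_le_pow_left (by omega) _).trans (Nat.pow_le_pow_right (by positivity) e1.le)
          refine lt_of_le_of_lt e2 ?_
          rw [← pow_mul]
          refine Nat.pow_lt_pow_right (by norm_num) ?_
          have e3 : 2 ^ (J + 1 - j) = 2 * 2 ^ (J - j) := by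
            rw [show J + 1 - j = J - j + 1 by omega, pow_succ]; ring
          rw [e3]
          have e4 : 0 < 2 ^ (J - j) := by positivity
          nlinarith
      rw [← nf_eq hj] at h1
      obtain ⟨G, hG⟩ := h1
      exact ⟨G, fun _ => hG⟩
    · exact ⟨fun _ _ => ⟨0, by omega⟩, fun h => absurd h hj⟩
  choose G hG using hlev
  refine ⟨G, ?_⟩
  rintro v ⟨i0, hi0⟩
  obtain ⟨D, hD⟩ : ∃ D, D = 8 * (2 * J + 3) * 2 ^ J := ⟨_, rfl⟩
  have hcard : Fintype.card (Ix J) = (J + 2) * D := by rw [hD]; exact card_Ix J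
  rw [hcard]
  constructor
  · -- the level of the vector
    have hw : 1 ≤ wtv v := by
      unfold wtv
      refine Finset.card_pos.2 ⟨i0, Finset.mem_filter.2 ⟨Finset.mem_univ _, ?_⟩⟩
      revert hi0
      generalize v i0 = a
      revert a
      decide
    have hwm : wtv v ≤ m := by
      unfold wtv
      refine (Finset.card_filter_le _ _).trans ?_
      simp
    obtain ⟨j, hj⟩ : ∃ j, j = Nat.log 2 (m / wtv v) := ⟨_, rfl⟩
    have hq : m / wtv v ≠ 0 := (Nat.div_pos hwm hw).ne'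
    have h1 : 2 ^ j * wtv v ≤ m := by
      have := Nat.pow_log_le_self 2 hq
      rw [← hj] at this
      exact (Nat.mul_le_mul_right _ this).trans (Nat.div_mul_le_self _ _)
    have h2 : m < 2 * (2 ^ j * wtv v) := by
      have := Nat.lt_pow_succ_log_self (b := 2) (by norm_num) (m / wtv v)
      rw [← hj, Nat.div_lt_iff_lt_mul hw, pow_succ] at this
      linarith
    have hjJ : j ≤ J := by
      rw [hj, hJ]
      exact Nat.log_mono_right (Nat.div_le_self _ _)
    have h3 := hG j hjJ v h1 h2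
    have h4 := level_count (G := G) (v := v) (a := 1) ⟨j, by omega⟩ (c := of (G j) v) (by
      unfold of
      refine Finset.card_le_card fun b hb => ?_
      have := (Finset.mem_filter.1 hb).2
      refine Finset.mem_filter.2 ⟨Finset.mem_univ _, ?_⟩
      unfold fam
      rw [if_pos hjJ, lv_fc]
      exact this)
    have h5 : D ≤ 16 * (2 ^ j * of (G j) v) := by
      rw [hD, ← nf_mul (J := J) (j := j) (by omega)]
      calc 2 ^ j * nf J j ≤ 2 ^ j * (16 * of (G j) v) := Nat.mul_le_mul_left _ h3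
        _ = _ := by ring
    calc (J + 2) * D ≤ (J + 2) * (16 * (2 ^ j * of (G j) v)) := Nat.mul_le_mul_left _ h5
      _ = 16 * (J + 2) * (2 ^ j * of (G j) v) := by ring
      _ ≤ _ := Nat.mul_le_mul_left _ h4
  · have h4 := level_count (G := G) (v := v) (a := 0) ⟨J + 1, by omega⟩ (c := nf J (J + 1)) (by
      have : (univ.filter fun b => lv (fam J G ⟨⟨J + 1, by omega⟩, ⟨0, by positivity⟩, b⟩) v = 0) = univ := by
        refine Finset.filter_true_of_mem fun b _ => ?_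
        unfold fam
        rw [if_neg (by simp)]
        exact lv_zero v
      rw [this, Finset.card_univ, Fintype.card_fin])
    simp only at h4
    rw [nf_mul (J := J) (j := J + 1) le_rfl, ← hD] at h4
    calc (J + 2) * D ≤ 16 * (J + 2) * D := by nlinarith [Nat.zero_le ((J + 2) * D)]
      _ ≤ _ := Nat.mul_le_mul_left _ h4

/-- the number of products is large enough -/
theorem pow_bound {A : ℕ} (hA : 2 ≤ A) :
    ((A : ℤ) ^ 3 - 2) ^ (16 * A ^ 3 * m) * 2 ^ (16 * m) ≤ ((A : ℤ) ^ 3) ^ (16 * A ^ 3 * m) := by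
  have hA8 : 8 ≤ A ^ 3 := by
    calc 8 = 2 ^ 3 := by norm_num
      _ ≤ _ := Nat.pow_le_pow_left hA 3
  obtain ⟨t, ht⟩ : ∃ t, A ^ 3 = t + 1 := ⟨A ^ 3 - 1, by omega⟩
  have hA3 : (A : ℤ) ^ 3 = t + 1 := by exact_mod_cast ht
  have ha : (0 : ℤ) ≤ (A : ℤ) ^ 3 - 2 := by
    have : (8 : ℤ) ≤ (A : ℤ) ^ 3 := by exact_mod_cast hA8
    linarith
  have h1 := bern ((A : ℤ) ^ 3 - 2) 2 ha (by norm_num) t
  rw [show (A : ℤ) ^ 3 - 2 + 2 = (A : ℤ) ^ 3 by ring] at h1
  have h2 : ((A : ℤ) ^ 3 - 2) ^ (A ^ 3) * 2 ≤ ((A : ℤ) ^ 3) ^ (A ^ 3) := by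
    rw [ht]
    refine le_trans ?_ h1
    have h3 : ((A : ℤ) ^ 3 - 2) * ((A : ℤ) ^ 3 - 2) ^ t ≤ ((t : ℤ) + 1) * 2 * ((A : ℤ) ^ 3 - 2) ^ t :=
      mul_le_mul_of_nonneg_right (by
        rw [hA3]
        have : (0 : ℤ) ≤ t := by positivity
        linarith) (pow_nonneg ha _)
    have h4 : ((A : ℤ) ^ 3 - 2) ^ (t + 1) = ((A : ℤ) ^ 3 - 2) * ((A : ℤ) ^ 3 - 2) ^ t := by ring
    linarith
  have e1 : 16 * A ^ 3 * m = A ^ 3 * (16 * m) := by ring
  rw [e1, pow_mul _ (A ^ 3) (16 * m), pow_mul _ (A ^ 3) (16 * m), ← mul_pow]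
  exact pow_le_pow_left₀ (mul_nonneg (pow_nonneg ha _) (by norm_num)) h2 _

/-- computing all forms of the first levels -/
theorem comp_levels (J : ℕ) (G : ∀ j, Fin (nf J j) → Fin (2 ^ j) → Fin m) (k : ℕ) (hk : k ≤ J + 1) :
    ∃ L : List (BF m), Ext [] L (k * (4 * (8 * (2 * J + 3) * 2 ^ J))) ∧
      ∀ j < k, ∀ b, Av L fun x => decide (lin (fc (G j b)) x = 1) := by
  induction k with
  | zero => exact ⟨[], (Ext.refl .nil).mono (by omega), fun j hj => absurd hj (by omega)⟩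
  | succ k ih =>
    obtain ⟨L1, h1, h2⟩ := ih (by omega)
    obtain ⟨L2, h3, h4⟩ := ext_many h1.1 (c := 4 * 2 ^ k)
      (fun b : Fin (nf J k) => fun x => decide (lin (fc (G k b)) x = 1)) (fun b L' hL' _ => by
        obtain ⟨L'', h5, h6⟩ := ext_sum hL' (fun r x => x (G k b r)) fun r => av_proj _ _
        refine ⟨L'', h5, ?_⟩
        convert h6 using 1
        funext x
        rw [lin_fc])
    refine ⟨L2, (h1.trans h3).mono ?_, fun j hj b => ?_⟩
    · rw [Nat.succ_mul, ← nf_mul (J := J) (j := k) (by omega)]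
      refine le_of_eq ?_
      ring
    · rcases Nat.lt_succ_iff_lt_or_eq.1 hj with hj | rfl
      · exact h3.2.1 _ (h2 j hj b)
      · exact h4 b

/-- the functions are computed by few gates -/
theorem cmp_gF {J : ℕ} (G : ∀ j, Fin (nf J j) → Fin (2 ^ j) → Fin m) {K : ℕ}
    (C : Fin K → Ix J × Ix J × Ix J) :
    Cmp m ((J + 1) * (4 * (8 * (2 * J + 3) * 2 ^ J)) + 8 * K) (gF (fam J G) C) := by
  obtain ⟨L1, h1, h2⟩ := comp_levels J G (J + 1) le_rfl
  have hform : ∀ L', (∀ g, Av L1 g → Av L' g) → ∀ i : Ix J, Av L' fun x => decide (lin (fam J G i) x = 1) := by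
    intro L' hL' i
    unfold fam
    split_ifs with hi
    · exact hL' _ (h2 i.1.1 (by omega) i.2.2)
    · convert av_const L' false using 1
      funext x
      rw [lin_lv, lv_zero]
      decide
  obtain ⟨L2, h3, h4⟩ := ext_many h1.1 (c := 4)
    (fun s : Fin K => fun x => (decide (lin (fam J G (C s).1) x = 1) && decide (lin (fam J G (C s).2.1) x = 1)) &&
      decide (lin (fam J G (C s).2.2) x = 1)) (fun s L' hL' hsub => by
        obtain ⟨L3, h5, h6⟩ := ext_and hL' (hform L' hsub (C s).1) (hform L' hsub (C s).2.1)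
        obtain ⟨L4, h7, h8⟩ := ext_and h5.1 h6 (hform L3 (fun g hg => h5.2.1 _ (hsub g hg)) (C s).2.2)
        exact ⟨L4, h5.trans h7, h8⟩)
  obtain ⟨L3, h5, h6⟩ := ext_sum h3.1 _ h4
  refine ⟨L3, ((h1.trans h3).trans h5).mono (by omega), ?_⟩
  convert h6 using 1
  funext x
  unfold gF g3
  have h7 : ∀ s, lin (fam J G (C s).1) x * lin (fam J G (C s).2.1) x * lin (fam J G (C s).2.2) x =
      zb ((decide (lin (fam J G (C s).1) x = 1) && decide (lin (fam J G (C s).2.1) x = 1)) &&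
        decide (lin (fam J G (C s).2.2) x = 1)) := by
    intro s
    generalize lin (fam J G (C s).1) x = a
    generalize lin (fam J G (C s).2.1) x = b
    generalize lin (fam J G (C s).2.2) x = c
    revert a b c
    decide
  rw [Finset.sum_congr rfl fun s _ => h7 s]

/-- **Balanced functions with few gates.** -/
theorem exists_cmp {m e : ℕ} (he : 1 ≤ e) (h8 : 8 * e ≤ m) (h4 : 4 * m ≤ e ^ 2) :
    ∃ g : (Fin m → Bool) → Bool, Pool.Agent.KE.Bal g e ∧
      Cmp m (2 ^ 20 * (Nat.log 2 m + 2) ^ 3 * m) g := by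
  have hm : 1 ≤ m := by omega
  have h0 := exists_fam hm
  obtain ⟨J, hJ⟩ : ∃ J, J = Nat.log 2 m := ⟨_, rfl⟩
  have hJ1 : 2 ^ J ≤ m := by rw [hJ]; exact Nat.pow_log_le_self 2 (by omega)
  rw [← hJ] at h0 ⊢
  obtain ⟨G, hG⟩ := h0
  have hpos : 0 < nf J 0 := by
    have := nf_mul (J := J) (j := 0) (by omega)
    rw [pow_zero, one_mul] at this
    rw [this]
    positivity
  have : Nonempty (Ix J) := ⟨⟨⟨0, by omega⟩, ⟨0, by positivity⟩, ⟨0, hpos⟩⟩⟩
  obtain ⟨C, hC⟩ := exists_gF (K := 16 * (16 * (J + 2)) ^ 3 * m) (e := e) (by omega) hG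
    (pow_bound (by omega)) he h8 h4
  refine ⟨_, hC, ?_⟩
  obtain ⟨L, h1, h2⟩ := cmp_gF G C
  refine ⟨L, h1.mono ?_, h2⟩
  have e1 : (J + 1) * (4 * (8 * (2 * J + 3) * 2 ^ J)) ≤ 2 ^ 6 * (J + 2) ^ 3 * m := by
    calc (J + 1) * (4 * (8 * (2 * J + 3) * 2 ^ J)) = 32 * ((J + 1) * (2 * J + 3)) * 2 ^ J := by ring
      _ ≤ 32 * ((J + 2) * (2 * (J + 2))) * m := by gcongr <;> omega
      _ ≤ 2 ^ 6 * (J + 2) ^ 3 * m := by
        refine Nat.mul_le_mul_right _ ?_
        nlinarith [Nat.zero_le J, Nat.zero_le (J ^ 2), Nat.zero_le (J ^ 3)]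
  calc (J + 1) * (4 * (8 * (2 * J + 3) * 2 ^ J)) + 8 * (16 * (16 * (J + 2)) ^ 3 * m)
      ≤ 2 ^ 6 * (J + 2) ^ 3 * m + 2 ^ 19 * (J + 2) ^ 3 * m := by
        refine Nat.add_le_add e1 (le_of_eq ?_)
        ring
    _ ≤ 2 ^ 20 * (J + 2) ^ 3 * m := by
        have : 0 ≤ (J + 2) ^ 3 * m := Nat.zero_le _
        nlinarith

end

end Pool.Agent.KMS
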