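import Pool.Agent.KMR.Bal3

/-! Sums of products of three linear forms from a given family, balanced on all large cubes. -/

namespace Pool.Agent.KMS

open Finset Pool.Agent.SemRO Pool.Agent.KD Pool.Agent.KE Pool.Agent.KH Pool.Agent.KMR

/-- the value of the form with the coefficients `α` at the vector `v` -/
def lv {m : ℕ} (α : Fin m → Bool) (v : Fin m → ZMod 2) : ZMod 2 := ∑ l, zb (α l) * v l

section
variable {m : ℕ} {I : Type} [Fintype I]

/-- every nonzero vector has the value one at a fraction `1 / A` of the forms, and the value zero as well -/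
def Spread (F : I → Fin m → Bool) (A : ℕ) : Prop :=
  ∀ v : Fin m → ZMod 2, (∃ i, v i ≠ 0) →
    Fintype.card I ≤ A * (univ.filter fun i => lv (F i) v = 1).card ∧
      Fintype.card I ≤ A * (univ.filter fun i => lv (F i) v = 0).card

/-- the sum over all products of the products of the signs -/
def WF (F : I → Fin m → Bool) {r : ℕ} (z z' : Fin r → Fin m → Bool) : ℤ :=
  ∑ c : I × I × I, ∏ s, (ch (lin (F c.1) (z s) * lin (F c.2.1) (z s) * lin (F c.2.2) (z s)) *
    ch (lin (F c.1) (z' s) * lin (F c.2.1) (z' s) * lin (F c.2.2) (z' s)))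

theorem WF_le (F : I → Fin m → Bool) {r : ℕ} (z z' : Fin r → Fin m → Bool) :
    |WF F z z'| ≤ (Fintype.card I : ℤ) ^ 3 := by
  unfold WF
  refine (Finset.abs_sum_le_sum_abs _ _).trans ?_
  have h : ∀ c : I × I × I, |∏ s, (ch (lin (F c.1) (z s) * lin (F c.2.1) (z s) * lin (F c.2.2) (z s)) *
      ch (lin (F c.1) (z' s) * lin (F c.2.1) (z' s) * lin (F c.2.2) (z' s)))| = 1 := by
    intro c
    rw [Finset.abs_prod]
    refine Finset.prod_eq_one fun s _ => ?_
    rw [abs_mul, abs_ch, abs_ch, one_mul]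
  rw [Finset.sum_congr rfl fun c _ => h c, Finset.sum_const, Finset.card_univ, Fintype.card_prod,
    Fintype.card_prod, nsmul_eq_mul, mul_one]
  push_cast
  refine le_of_eq ?_
  ring

/-- the product over the copies, as a function of the third form -/
theorem third {r : ℕ} (z z' : Fin r → Fin m → Bool) (α β γ : Fin m → Bool) :
    ∏ s, (ch (lin α (z s) * lin β (z s) * lin γ (z s)) *
      ch (lin α (z' s) * lin β (z' s) * lin γ (z' s))) =
    ch (lv γ fun l => ∑ s, (lin α (z s) * lin β (z s) * zb (z s l) +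
      lin α (z' s) * lin β (z' s) * zb (z' s l))) := by
  have h1 : ∀ s, ch (lin α (z s) * lin β (z s) * lin γ (z s)) *
      ch (lin α (z' s) * lin β (z' s) * lin γ (z' s)) =
      ch (lin α (z s) * lin β (z s) * lin γ (z s) + lin α (z' s) * lin β (z' s) * lin γ (z' s)) :=
    fun s => (ch_add _ _).symm
  rw [Finset.prod_congr rfl fun s _ => h1 s, ← ch_sum]
  congr 1
  have h2 : ∀ s, lin α (z s) * lin β (z s) * lin γ (z s) + lin α (z' s) * lin β (z' s) * lin γ (z' s) =
      ∑ l, zb (γ l) * (lin α (z s) * lin β (z s) * zb (z s l) +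
        lin α (z' s) * lin β (z' s) * zb (z' s l)) := by
    intro s
    rw [lin_eq γ (z s), lin_eq γ (z' s), Finset.mul_sum, Finset.mul_sum, ← Finset.sum_add_distrib]
    refine Finset.sum_congr rfl fun l _ => ?_
    ring
  rw [Finset.sum_congr rfl fun s _ => h2 s, Finset.sum_comm]
  unfold lv
  refine Finset.sum_congr rfl fun l _ => ?_
  rw [Finset.mul_sum]

/-- the sum of the signs of a family at a nonzero vector -/
theorem sum_ch_F {F : I → Fin m → Bool} {A : ℕ} (hF : Spread F A) {v : Fin m → ZMod 2}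
    (hv : ∃ i, v i ≠ 0) : (A : ℤ) * |∑ i, ch (lv (F i) v)| ≤ (A - 2) * Fintype.card I := by
  obtain ⟨h1, h0⟩ := hF v hv
  obtain ⟨p, hp⟩ : ∃ p, p = (univ.filter fun i => lv (F i) v = 1).card := ⟨_, rfl⟩
  obtain ⟨q, hq⟩ : ∃ q, q = (univ.filter fun i => lv (F i) v = 0).card := ⟨_, rfl⟩
  have hpq : p + q = Fintype.card I := by
    rw [hp, hq, ← Finset.card_univ, ← Finset.card_filter_add_card_filter_not (s := univ)
      (p := fun i => lv (F i) v = 1)]
    congr 2
    refine Finset.filter_congr fun i _ => ?_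
    generalize lv (F i) v = a
    revert a
    decide
  have hs : ∑ i, ch (lv (F i) v) = (q : ℤ) - p := by
    have h2 : ∀ i, ch (lv (F i) v) = (if lv (F i) v = 0 then (1 : ℤ) else 0) -
        (if lv (F i) v = 1 then (1 : ℤ) else 0) := by
      intro i
      generalize lv (F i) v = a
      revert a
      decide
    rw [Finset.sum_congr rfl fun i _ => h2 i, Finset.sum_sub_distrib, Finset.sum_boole,
      Finset.sum_boole, hp, hq]
  rw [hs]
  rw [← hp] at h1
  rw [← hq] at h0
  have h1' : (Fintype.card I : ℤ) ≤ A * p := by exact_mod_cast h1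
  have h0' : (Fintype.card I : ℤ) ≤ A * q := by exact_mod_cast h0
  have hpq' : (p : ℤ) + q = Fintype.card I := by exact_mod_cast hpq
  rw [← Nat.abs_cast A, ← abs_mul, Nat.abs_cast, abs_le]
  constructor <;> nlinarith

/-- the quadratic form of a tuple does not vanish at many pairs -/
theorem many_pairs {F : I → Fin m → Bool} {A : ℕ} (hF : Spread F A) {r : ℕ} (z : Fin r → Fin m → Bool)
    {i j : Fin m} (h : ∑ s, zb (z s i) * zb (z s j) ≠ 0) :
    (Fintype.card I) ^ 2 ≤ A ^ 2 * ∑ a : I, (univ.filter fun b : I =>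
      ∑ s, lin (F a) (z s) * lin (F b) (z s) ≠ 0).card := by
  -- the vector of `b`
  have e1 : ∀ (b : I) (k : Fin m), ∑ s, zb (z s k) * lin (F b) (z s) =
      lv (F b) fun l => ∑ s, zb (z s k) * zb (z s l) := by
    intro b k
    have : ∀ s, zb (z s k) * lin (F b) (z s) = ∑ l, zb (F b l) * (zb (z s k) * zb (z s l)) := by
      intro s
      rw [lin_eq, Finset.mul_sum]
      exact Finset.sum_congr rfl fun l _ => by ring
    rw [Finset.sum_congr rfl fun s _ => this s, Finset.sum_comm]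
    unfold lv
    exact Finset.sum_congr rfl fun l _ => by rw [Finset.mul_sum]
  have e2 : ∀ a b : I, ∑ s, lin (F a) (z s) * lin (F b) (z s) =
      lv (F a) fun k => ∑ s, zb (z s k) * lin (F b) (z s) := by
    intro a b
    have : ∀ s, lin (F a) (z s) * lin (F b) (z s) = ∑ k, zb (F a k) * (zb (z s k) * lin (F b) (z s)) := by
      intro s
      rw [lin_eq (F a), Finset.sum_mul]
      exact Finset.sum_congr rfl fun l _ => by ring
    rw [Finset.sum_congr rfl fun s _ => this s, Finset.sum_comm]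
    unfold lv
    exact Finset.sum_congr rfl fun l _ => by rw [Finset.mul_sum]
  -- many good `b`
  set G : Finset I := univ.filter fun b => lv (F b) (fun l => ∑ s, zb (z s i) * zb (z s l)) = 1 with hG
  have hG1 : Fintype.card I ≤ A * G.card := (hF _ ⟨j, h⟩).1
  have h2 : ∀ b ∈ G, Fintype.card I ≤ A * (univ.filter fun a : I =>
      ∑ s, lin (F a) (z s) * lin (F b) (z s) ≠ 0).card := by
    intro b hb
    have hb1 := (Finset.mem_filter.1 hb).2
    rw [← e1 b i] at hb1
    have h3 := (hF (fun k => ∑ s, zb (z s k) * lin (F b) (z s)) ⟨i, by rw [hb1]; decide⟩).1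
    refine h3.trans (Nat.mul_le_mul_left _ (Finset.card_le_card fun a ha => ?_))
    have ha1 := (Finset.mem_filter.1 ha).2
    refine Finset.mem_filter.2 ⟨Finset.mem_univ _, ?_⟩
    rw [e2, ha1]
    decide
  have h3 : ∑ a : I, (univ.filter fun b : I => ∑ s, lin (F a) (z s) * lin (F b) (z s) ≠ 0).card =
      ∑ b : I, (univ.filter fun a : I => ∑ s, lin (F a) (z s) * lin (F b) (z s) ≠ 0).card := by
    simp only [Finset.card_filter]
    exact Finset.sum_comm
  have h4 : ∑ b ∈ G, (univ.filter fun a : I => ∑ s, lin (F a) (z s) * lin (F b) (z s) ≠ 0).card ≤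
      ∑ b : I, (univ.filter fun a : I => ∑ s, lin (F a) (z s) * lin (F b) (z s) ≠ 0).card :=
    Finset.sum_le_sum_of_subset (Finset.subset_univ _)
  have h5 : G.card * Fintype.card I ≤ A * ∑ b ∈ G, (univ.filter fun a : I =>
      ∑ s, lin (F a) (z s) * lin (F b) (z s) ≠ 0).card := by
    rw [Finset.mul_sum, ← smul_eq_mul]
    exact Finset.card_nsmul_le_sum _ _ _ h2
  rw [h3]
  calc Fintype.card I ^ 2 ≤ (A * G.card) * Fintype.card I := by
        rw [pow_two]; exact Nat.mul_le_mul_right _ hG1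
    _ = A * (G.card * Fintype.card I) := by ring
    _ ≤ A * (A * ∑ b ∈ G, (univ.filter fun a : I =>
      ∑ s, lin (F a) (z s) * lin (F b) (z s) ≠ 0).card) := Nat.mul_le_mul_left _ h5
    _ = A ^ 2 * ∑ b ∈ G, (univ.filter fun a : I =>
      ∑ s, lin (F a) (z s) * lin (F b) (z s) ≠ 0).card := by ring
    _ ≤ _ := Nat.mul_le_mul_left _ h4

/-- the sum is smaller if the tuple is not even -/
theorem WF_small {F : I → Fin m → Bool} {A : ℕ} (hF : Spread F A) {r : ℕ} {T : Finset (Fin m)}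
    {y y' : Fin m → Bool} {l : Fin m} (hl : l ∉ T)
    (hyl : y l ≠ y' l) {p : Fin r → Fin m → Bool} (hp : ∀ s, p s ∈ cube T y) (ho : ¬ EvenOn T p) :
    (A : ℤ) ^ 3 * |WF F p fun s => mix T (p s) y'| ≤ (A ^ 3 - 2) * (Fintype.card I) ^ 3 := by
  unfold EvenOn at ho
  push Not at ho
  obtain ⟨i, hi, j, hj, ho⟩ := ho
  -- the tuple that appears in coordinate `l`
  obtain ⟨z, hz, hzi, hzj⟩ : ∃ z : Fin r → Fin m → Bool,
      (∀ α β : Fin m → Bool, ∑ s, (lin α (p s) * lin β (p s) * zb (p s l) +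
        lin α (mix T (p s) y') * lin β (mix T (p s) y') * zb (mix T (p s) y' l)) =
          ∑ s, lin α (z s) * lin β (z s)) ∧ (∀ s, z s i = p s i) ∧ ∀ s, z s j = p s j := by
    have e1 : ∀ s, p s l = y l := fun s => mem_cube.1 (hp s) l hl
    have e2 : ∀ s, mix T (p s) y' l = y' l := fun s => by simp [mix, hl]
    by_cases hy : y l = true
    · have hy' : y' l = false := by
        cases h : y' l
        · rfl
        · exact absurd (hy.trans h.symm) hyl
      refine ⟨p, fun α β => Finset.sum_congr rfl fun s _ => ?_, fun _ => rfl, fun _ => rfl⟩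
      rw [e1, e2, hy, hy']
      show _ * (1 : ZMod 2) + _ * (0 : ZMod 2) = _
      ring
    · rw [Bool.not_eq_true] at hy
      have hy' : y' l = true := by
        cases h : y' l
        · exact absurd (hy.trans h.symm) hyl
        · rfl
      refine ⟨fun s => mix T (p s) y', fun α β => Finset.sum_congr rfl fun s _ => ?_,
        fun s => by simp [mix, hi], fun s => by simp [mix, hj]⟩
      rw [e1, e2, hy, hy']
      show _ * (0 : ZMod 2) + _ * (1 : ZMod 2) = _
      ring
  have hM : ∑ s, zb (z s i) * zb (z s j) ≠ 0 := by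
    intro h0
    apply ho
    have e3 : ∑ s, zb (z s i) * zb (z s j) =
        (((univ.filter fun s => (p s i && p s j) = true).card : ℕ) : ZMod 2) := by
      rw [Finset.card_filter]
      push_cast
      refine Finset.sum_congr rfl fun s _ => ?_
      rw [hzi, hzj]
      cases p s i <;> cases p s j <;> decide
    rw [h0] at e3
    have := (ZMod.natCast_eq_zero_iff_even (n := (univ.filter fun s => (p s i && p s j) = true).card)).1
      e3.symm
    simpa using this
  obtain ⟨n, hn⟩ : ∃ n : ℤ, n = Fintype.card I := ⟨_, rfl⟩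
  have hn0 : 0 ≤ n := by rw [hn]; positivity
  have hcell : ∀ a b : I, (A : ℤ) * |∑ c : I, ∏ s, (ch (lin (F a) (p s) * lin (F b) (p s) *
      lin (F c) (p s)) * ch (lin (F a) (mix T (p s) y') * lin (F b) (mix T (p s) y') *
      lin (F c) (mix T (p s) y')))| ≤
      A * n - 2 * n * (if ∑ s, lin (F a) (z s) * lin (F b) (z s) ≠ 0 then (1 : ℤ) else 0) := by
    intro a b
    rw [Finset.sum_congr rfl fun c _ => third p (fun s => mix T (p s) y') (F a) (F b) (F c)]
    split_ifs with hc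
    · have h1 := sum_ch_F hF (v := fun l => ∑ s, (lin (F a) (p s) * lin (F b) (p s) * zb (p s l) +
        lin (F a) (mix T (p s) y') * lin (F b) (mix T (p s) y') * zb (mix T (p s) y' l)))
        ⟨l, by rw [hz]; exact hc⟩
      rw [← hn] at h1
      linarith
    · rw [mul_zero, sub_zero]
      refine mul_le_mul_of_nonneg_left ?_ (by positivity)
      refine (Finset.abs_sum_le_sum_abs _ _).trans ?_
      rw [Finset.sum_congr rfl fun c _ => abs_ch _, Finset.sum_const, Finset.card_univ,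
        nsmul_eq_mul, mul_one, hn]
  have h1 : (A : ℤ) * |WF F p fun s => mix T (p s) y'| ≤ ∑ a : I, ∑ b : I,
      (A * n - 2 * n * (if ∑ s, lin (F a) (z s) * lin (F b) (z s) ≠ 0 then (1 : ℤ) else 0)) := by
    unfold WF
    rw [Fintype.sum_prod_type]
    refine (mul_le_mul_of_nonneg_left (Finset.abs_sum_le_sum_abs _ _) (by positivity)).trans ?_
    rw [Finset.mul_sum]
    refine Finset.sum_le_sum fun a _ => ?_
    rw [Fintype.sum_prod_type]
    refine (mul_le_mul_of_nonneg_left (Finset.abs_sum_le_sum_abs _ _) (by positivity)).trans ?_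
    rw [Finset.mul_sum]
    exact Finset.sum_le_sum fun b _ => hcell a b
  have h2 := many_pairs hF z hM
  obtain ⟨c, hc⟩ : ∃ c : ℕ, c = ∑ a : I, (univ.filter fun b : I =>
      ∑ s, lin (F a) (z s) * lin (F b) (z s) ≠ 0).card := ⟨_, rfl⟩
  have h3 : ∑ a : I, ∑ b : I,
      (A * n - 2 * n * (if ∑ s, lin (F a) (z s) * lin (F b) (z s) ≠ 0 then (1 : ℤ) else 0)) =
      A * n ^ 3 - 2 * n * c := by
    simp only [Finset.sum_sub_distrib, Finset.sum_const, Finset.card_univ, nsmul_eq_mul, ← Finset.mul_sum,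
      Finset.sum_boole]
    rw [← hn, hc]
    push_cast
    ring
  rw [h3] at h1
  rw [← hc] at h2
  have h2' : n ^ 2 ≤ (A : ℤ) ^ 2 * c := by
    rw [hn]
    exact_mod_cast h2
  rw [← hn]
  have h4 := mul_le_mul_of_nonneg_left h1 (show (0 : ℤ) ≤ A ^ 2 by positivity)
  have h5 := mul_le_mul_of_nonneg_left h2' (show (0 : ℤ) ≤ 2 * n by positivity)
  nlinarith

/-- the function of a family of products -/
def gF (F : I → Fin m → Bool) {K : ℕ} (C : Fin K → I × I × I) (x : Fin m → Bool) : Bool :=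
  g3 (fun s => F (C s).1) (fun s => F (C s).2.1) (fun s => F (C s).2.2) x

theorem sg_gF (F : I → Fin m → Bool) {K : ℕ} (C : Fin K → I × I × I) (x : Fin m → Bool) :
    sg (gF F C x) = ∏ s, ch (lin (F (C s).1) x * lin (F (C s).2.1) x * lin (F (C s).2.2) x) := by
  unfold gF g3
  rw [sg_dec, ch_sum]

/-- the moment -/
theorem momentF {F : I → Fin m → Bool} {A : ℕ} (hA : 2 ≤ A) (hF : Spread F A) {K q : ℕ}
    {T : Finset (Fin m)} {y y' : Fin m → Bool} (hy : ∃ i, i ∉ T ∧ y i ≠ y' i) :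
    ((A : ℤ) ^ 3) ^ K * ∑ C : Fin K → I × I × I, ssum (gF F C) T y y' ^ (2 * q) ≤
      ((Fintype.card I : ℤ) ^ 3) ^ K * (((A : ℤ) ^ 3) ^ K * ((2 : ℤ) ^ (T.card * q) * 2 ^ (2 * q * q)) +
        ((A : ℤ) ^ 3 - 2) ^ K * 2 ^ (T.card * (2 * q))) := by
  classical
  obtain ⟨l, hl, hyl⟩ := hy
  obtain ⟨M, hM⟩ : ∃ M : ℤ, M = (Fintype.card I : ℤ) ^ 3 := ⟨_, rfl⟩
  obtain ⟨a, ha⟩ : ∃ a : ℤ, a = (A : ℤ) ^ 3 := ⟨_, rfl⟩
  have hM0 : 0 ≤ M := by rw [hM]; positivity
  have ha8 : 8 ≤ a := by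
    rw [ha]
    have : (2 : ℤ) ≤ A := by exact_mod_cast hA
    calc (8 : ℤ) = 2 ^ 3 := by norm_num
      _ ≤ _ := pow_le_pow_left₀ (by norm_num) this 3
  set P := Fintype.piFinset fun _ : Fin (2 * q) => cube T y with hP
  have e1 : ∀ C : Fin K → I × I × I, ssum (gF F C) T y y' ^ (2 * q) =
      ∑ p ∈ P, ∏ s, (sg (gF F C (p s)) * sg (gF F C (mix T (p s) y'))) := by
    intro C
    have h := Finset.prod_univ_sum (κ := fun _ => Fin m → Bool) (fun _ : Fin (2 * q) => cube T y)
      (fun _ x => sg (gF F C x) * sg (gF F C (mix T x y')))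
    rw [Finset.prod_const, Finset.card_univ, Fintype.card_fin] at h
    exact h
  have e2 : ∀ (C : Fin K → I × I × I) (p : Fin (2 * q) → Fin m → Bool),
      ∏ s, (sg (gF F C (p s)) * sg (gF F C (mix T (p s) y'))) =
        ∏ k, (fun c : I × I × I => ∏ s, (ch (lin (F c.1) (p s) * lin (F c.2.1) (p s) * lin (F c.2.2) (p s)) *
          ch (lin (F c.1) (mix T (p s) y') * lin (F c.2.1) (mix T (p s) y') *
            lin (F c.2.2) (mix T (p s) y')))) (C k) := by
    intro C p
    simp only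
    rw [Finset.prod_comm]
    refine Finset.prod_congr rfl fun s _ => ?_
    rw [sg_gF, sg_gF, ← Finset.prod_mul_distrib]
  have e3 : ∀ p : Fin (2 * q) → Fin m → Bool,
      ∑ C : Fin K → I × I × I, ∏ s, (sg (gF F C (p s)) * sg (gF F C (mix T (p s) y'))) =
        (WF F p fun s => mix T (p s) y') ^ K := by
    intro p
    rw [Finset.sum_congr rfl fun C _ => e2 C p]
    have h := Finset.prod_univ_sum (κ := fun _ : Fin K => I × I × I)
      (fun _ : Fin K => (univ : Finset (I × I × I)))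
      (fun _ c => ∏ s, (ch (lin (F c.1) (p s) * lin (F c.2.1) (p s) * lin (F c.2.2) (p s)) *
          ch (lin (F c.1) (mix T (p s) y') * lin (F c.2.1) (mix T (p s) y') *
            lin (F c.2.2) (mix T (p s) y'))))
    rw [Fintype.piFinset_univ, Finset.prod_const, Finset.card_univ, Fintype.card_fin] at h
    unfold WF
    exact h.symm
  rw [Finset.sum_congr rfl fun C _ => e1 C, Finset.sum_comm, Finset.sum_congr rfl fun p _ => e3 p,
    ← hM, ← ha]
  have h1 : ∀ p ∈ P, a ^ K * (WF F p fun s => mix T (p s) y') ^ K ≤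
      (if EvenOn T p then M ^ K * a ^ K else 0) + M ^ K * (a - 2) ^ K := by
    intro p hp
    rw [hP, Fintype.mem_piFinset] at hp
    have hW := WF_le F p fun s => mix T (p s) y'
    rw [← hM] at hW
    split_ifs with h
    · have h2 : (WF F p fun s => mix T (p s) y') ^ K ≤ M ^ K := by
        refine (le_abs_self _).trans ?_
        rw [abs_pow]
        exact pow_le_pow_left₀ (abs_nonneg _) hW K
      have h3 : (0 : ℤ) ≤ M ^ K * (a - 2) ^ K :=
        mul_nonneg (pow_nonneg hM0 _) (pow_nonneg (by linarith) _)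
      have h4 : a ^ K * (WF F p fun s => mix T (p s) y') ^ K ≤ a ^ K * M ^ K :=
        mul_le_mul_of_nonneg_left h2 (pow_nonneg (by linarith) _)
      linarith
    · have h2 : a ^ K * (WF F p fun s => mix T (p s) y') ^ K ≤
          (a * |WF F p fun s => mix T (p s) y'|) ^ K := by
        rw [mul_pow, ← abs_pow]
        exact mul_le_mul_of_nonneg_left (le_abs_self _) (pow_nonneg (by linarith) _)
      have h3 : (a * |WF F p fun s => mix T (p s) y'|) ^ K ≤ ((a - 2) * M) ^ K := by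
        refine pow_le_pow_left₀ (mul_nonneg (by linarith) (abs_nonneg _)) ?_ K
        have := WF_small hF hl hyl hp h
        rw [← ha, ← hM] at this
        exact this
      rw [mul_pow (a - 2) M K] at h3
      have h4 := h2.trans h3
      linarith
  rw [Finset.mul_sum]
  refine (Finset.sum_le_sum h1).trans ?_
  rw [Finset.sum_add_distrib, ← Finset.sum_filter, Finset.sum_const, Finset.sum_const, nsmul_eq_mul,
    nsmul_eq_mul]
  have h2 := card_evenOn T y q
  rw [← hP] at h2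
  have h3 : P.card ≤ 2 ^ (T.card * (2 * q)) := by
    rw [hP, Fintype.card_piFinset_const, card_cube, ← pow_mul]
  have h2' : (((P.filter fun p => EvenOn T p).card : ℕ) : ℤ) ≤ 2 ^ (T.card * q) * 2 ^ (2 * q * q) := by
    exact_mod_cast h2
  have h3' : ((P.card : ℕ) : ℤ) ≤ 2 ^ (T.card * (2 * q)) := by exact_mod_cast h3
  have h4 : (((P.filter fun p => EvenOn T p).card : ℕ) : ℤ) * (M ^ K * a ^ K) ≤
      (2 ^ (T.card * q) * 2 ^ (2 * q * q)) * (M ^ K * a ^ K) :=
    mul_le_mul_of_nonneg_right h2' (mul_nonneg (pow_nonneg hM0 _) (pow_nonneg (by linarith) _))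
  have h5 : ((P.card : ℕ) : ℤ) * (M ^ K * (a - 2) ^ K) ≤ 2 ^ (T.card * (2 * q)) * (M ^ K * (a - 2) ^ K) :=
    mul_le_mul_of_nonneg_right h3' (mul_nonneg (pow_nonneg hM0 _) (pow_nonneg (by linarith) _))
  refine (add_le_add h4 h5).trans (le_of_eq ?_)
  ring

/-- few coefficients are bad at a given cube -/
theorem bad_gF [Nonempty I] {F : I → Fin m → Bool} {A : ℕ} (hA : 2 ≤ A) (hF : Spread F A) {K e : ℕ}
    (hK : ((A : ℤ) ^ 3 - 2) ^ K * 2 ^ (16 * m) ≤ ((A : ℤ) ^ 3) ^ K)
    (h8 : 8 * e ≤ m) (h4 : 4 * m ≤ e ^ 2) (he : 1 ≤ e) {T : Finset (Fin m)}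
    {y y' : Fin m → Bool} (hy : ∃ i, i ∉ T ∧ y i ≠ y' i) (hT : T.card = 8 * e) :
    (univ.filter fun C : Fin K → I × I × I => ¬ |ssum (gF F C) T y y'| ≤ 2 ^ (6 * e)).card *
      2 ^ (3 * m + 1) ≤ Fintype.card (Fin K → I × I × I) := by
  classical
  obtain ⟨M, hM⟩ : ∃ M : ℤ, M = (Fintype.card I : ℤ) ^ 3 := ⟨_, rfl⟩
  obtain ⟨a, ha⟩ : ∃ a : ℤ, a = (A : ℤ) ^ 3 := ⟨_, rfl⟩
  have hM0 : 0 < M := by rw [hM]; have := Fintype.card_pos (α := I); positivity
  have ha8 : 8 ≤ a := by
    rw [ha]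
    have : (2 : ℤ) ≤ A := by exact_mod_cast hA
    calc (8 : ℤ) = 2 ^ 3 := by norm_num
      _ ≤ _ := pow_le_pow_left₀ (by norm_num) this 3
  rw [← ha] at hK
  obtain ⟨q, hq1, hq2⟩ : ∃ q, 3 * m + 2 ≤ 2 * e * q ∧ 2 * e * q ≤ 3 * m + 2 + 2 * e := by
    refine ⟨(3 * m + 2) / (2 * e) + 1, ?_, ?_⟩
    · have h1 := Nat.div_add_mod (3 * m + 2) (2 * e)
      have h2 := Nat.mod_lt (3 * m + 2) (show 0 < 2 * e by omega)
      rw [mul_add, mul_one]
      omega
    · have h1 := Nat.div_mul_le_self (3 * m + 2) (2 * e)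
      rw [mul_add, mul_one, mul_comm (2 * e)]
      omega
  have hqe : q ≤ e := by
    by_contra hcon
    push Not at hcon
    nlinarith
  set B := univ.filter fun C : Fin K → I × I × I => ¬ |ssum (gF F C) T y y'| ≤ 2 ^ (6 * e) with hB
  have h1 : ((B.card : ℕ) : ℤ) * 2 ^ (6 * e * (2 * q)) ≤
      ∑ C : Fin K → I × I × I, ssum (gF F C) T y y' ^ (2 * q) := by
    calc ((B.card : ℕ) : ℤ) * 2 ^ (6 * e * (2 * q)) = ∑ _C ∈ B, (2 : ℤ) ^ (6 * e * (2 * q)) := by
          rw [Finset.sum_const, nsmul_eq_mul]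
      _ ≤ ∑ C ∈ B, ssum (gF F C) T y y' ^ (2 * q) := by
          refine Finset.sum_le_sum fun C hC => ?_
          have h2 := (Finset.mem_filter.1 hC).2
          rw [not_le] at h2
          rw [pow_mul, ← (even_two_mul q).pow_abs (ssum (gF F C) T y y')]
          exact pow_le_pow_left₀ (by positivity) h2.le _
      _ ≤ ∑ C : Fin K → I × I × I, ssum (gF F C) T y y' ^ (2 * q) :=
          Finset.sum_le_sum_of_subset_of_nonneg (Finset.subset_univ _)
            fun C _ _ => (even_two_mul q).pow_nonneg _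
  have h2 := momentF (K := K) (q := q) hA hF hy
  rw [← hM, ← ha] at h2
  have h4' : 2 * q * q ≤ 2 * e * q := Nat.mul_le_mul_right _ (by omega)
  -- the first part
  have h5 : (2 : ℤ) ^ (T.card * q) * 2 ^ (2 * q * q) * 2 ^ (3 * m + 2) ≤ 2 ^ (6 * e * (2 * q)) := by
    rw [← pow_add, ← pow_add]
    refine pow_le_pow_right₀ (by norm_num) ?_
    rw [hT]
    have e1 : 8 * e * q = 4 * (2 * e * q) := by ring
    have e2 : 6 * e * (2 * q) = 6 * (2 * e * q) := by ring
    omega
  -- the second part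
  have h6 : (2 : ℤ) ^ (T.card * (2 * q)) * 2 ^ (3 * m + 2) ≤ 2 ^ (6 * e * (2 * q)) * 2 ^ (16 * m) := by
    rw [← pow_add, ← pow_add]
    refine pow_le_pow_right₀ (by norm_num) ?_
    rw [hT]
    have e1 : 8 * e * (2 * q) = 8 * (2 * e * q) := by ring
    have e2 : 6 * e * (2 * q) = 6 * (2 * e * q) := by ring
    omega
  have haK : 0 < a ^ K := pow_pos (by linarith) _
  have ha2 : 0 ≤ (a - 2) ^ K := pow_nonneg (by linarith) _
  have h7 : ((B.card : ℕ) : ℤ) * 2 ^ (3 * m + 1) ≤ M ^ K := by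
    have hpos : (0 : ℤ) < a ^ K * 2 ^ (6 * e * (2 * q)) := by positivity
    refine le_of_mul_le_mul_right ?_ hpos
    have a1 : ((B.card : ℕ) : ℤ) * 2 ^ (3 * m + 1) * (a ^ K * 2 ^ (6 * e * (2 * q))) =
        a ^ K * (((B.card : ℕ) : ℤ) * 2 ^ (6 * e * (2 * q))) * 2 ^ (3 * m + 1) := by ring
    have a2 : a ^ K * (((B.card : ℕ) : ℤ) * 2 ^ (6 * e * (2 * q))) ≤
        M ^ K * (a ^ K * ((2 : ℤ) ^ (T.card * q) * 2 ^ (2 * q * q)) +
          (a - 2) ^ K * 2 ^ (T.card * (2 * q))) :=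
      (mul_le_mul_of_nonneg_left h1 haK.le).trans h2
    have a3 : (2 : ℤ) * (a ^ K * ((2 : ℤ) ^ (T.card * q) * 2 ^ (2 * q * q)) * 2 ^ (3 * m + 1)) ≤
        a ^ K * 2 ^ (6 * e * (2 * q)) := by
      calc (2 : ℤ) * (a ^ K * ((2 : ℤ) ^ (T.card * q) * 2 ^ (2 * q * q)) * 2 ^ (3 * m + 1))
          = a ^ K * (2 ^ (T.card * q) * 2 ^ (2 * q * q) * 2 ^ (3 * m + 2)) := by
            rw [show 3 * m + 2 = (3 * m + 1) + 1 by omega, pow_succ]; ring
        _ ≤ _ := mul_le_mul_of_nonneg_left h5 haK.le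
    have a4 : (2 : ℤ) * ((a - 2) ^ K * 2 ^ (T.card * (2 * q)) * 2 ^ (3 * m + 1)) ≤
        a ^ K * 2 ^ (6 * e * (2 * q)) := by
      calc (2 : ℤ) * ((a - 2) ^ K * 2 ^ (T.card * (2 * q)) * 2 ^ (3 * m + 1))
          = (a - 2) ^ K * (2 ^ (T.card * (2 * q)) * 2 ^ (3 * m + 2)) := by
            rw [show 3 * m + 2 = (3 * m + 1) + 1 by omega, pow_succ]; ring
        _ ≤ (a - 2) ^ K * (2 ^ (6 * e * (2 * q)) * 2 ^ (16 * m)) :=
            mul_le_mul_of_nonneg_left h6 ha2
        _ = ((a - 2) ^ K * 2 ^ (16 * m)) * 2 ^ (6 * e * (2 * q)) := by ring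
        _ ≤ a ^ K * 2 ^ (6 * e * (2 * q)) := mul_le_mul_of_nonneg_right hK (by positivity)
    rw [a1]
    have a5 := mul_le_mul_of_nonneg_right a2 (show (0 : ℤ) ≤ 2 ^ (3 * m + 1) by positivity)
    refine a5.trans ?_
    rw [mul_assoc]
    refine mul_le_mul_of_nonneg_left ?_ (pow_nonneg hM0.le _)
    rw [add_mul]
    linarith
  have h8' : (Fintype.card (Fin K → I × I × I) : ℤ) = M ^ K := by
    rw [Fintype.card_fun, Fintype.card_fin, Fintype.card_prod, Fintype.card_prod, hM]
    push_cast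
    ring
  have h9 : (((B.card * 2 ^ (3 * m + 1) : ℕ)) : ℤ) ≤ (Fintype.card (Fin K → I × I × I) : ℤ) := by
    rw [h8']
    push_cast
    exact h7
  exact_mod_cast h9

/-- **Good coefficients exist.** -/
theorem exists_gF [Nonempty I] {F : I → Fin m → Bool} {A : ℕ} (hA : 2 ≤ A) (hF : Spread F A) {K e : ℕ}
    (hK : ((A : ℤ) ^ 3 - 2) ^ K * 2 ^ (16 * m) ≤ ((A : ℤ) ^ 3) ^ K)
    (he : 1 ≤ e) (h8 : 8 * e ≤ m) (h4 : 4 * m ≤ e ^ 2) :
    ∃ C : Fin K → I × I × I, Bal (gF F C) e := by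
  classical
  by_contra hcon
  push Not at hcon
  set Q : Finset (Finset (Fin m) × (Fin m → Bool) × (Fin m → Bool)) :=
    univ.filter fun t => t.1.card = 8 * e ∧ ∃ i, i ∉ t.1 ∧ t.2.1 i ≠ t.2.2 i with hQ
  have hcov : (univ : Finset (Fin K → I × I × I)) ⊆ Q.biUnion fun t =>
      univ.filter fun C => ¬ |ssum (gF F C) t.1 t.2.1 t.2.2| ≤ 2 ^ (6 * e) := by
    intro C _
    have h := hcon C
    unfold Bal at h
    push Not at h
    obtain ⟨T, hT, y, y', hy, hb⟩ := h
    refine Finset.mem_biUnion.2 ⟨(T, y, y'), Finset.mem_filter.2 ⟨Finset.mem_univ _, hT, hy⟩,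
      Finset.mem_filter.2 ⟨Finset.mem_univ _, ?_⟩⟩
    rw [not_le]
    exact hb
  have h1 : Fintype.card (Fin K → I × I × I) ≤ ∑ t ∈ Q,
      (univ.filter fun C : Fin K → I × I × I =>
        ¬ |ssum (gF F C) t.1 t.2.1 t.2.2| ≤ 2 ^ (6 * e)).card := by
    rw [← Finset.card_univ]
    exact (Finset.card_le_card hcov).trans Finset.card_biUnion_le
  have h2 : Fintype.card (Fin K → I × I × I) * 2 ^ (3 * m + 1) ≤
      Q.card * Fintype.card (Fin K → I × I × I) := by
    refine (Nat.mul_le_mul_right _ h1).trans ?_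
    rw [Finset.sum_mul, ← smul_eq_mul]
    refine Finset.sum_le_card_nsmul _ _ _ fun t ht => ?_
    obtain ⟨_, ht1, ht2⟩ := Finset.mem_filter.1 ht
    exact bad_gF hA hF hK h8 h4 he ht2 ht1
  have h3 : Q.card ≤ 2 ^ (3 * m) := by
    refine (Finset.card_filter_le _ _).trans (le_of_eq ?_)
    rw [Finset.card_univ, Fintype.card_prod, Fintype.card_prod, Fintype.card_finset, Fintype.card_fun,
      Fintype.card_bool, Fintype.card_fin, ← pow_add, ← pow_add]
    congr 1
    ring
  have hpos : 0 < Fintype.card (Fin K → I × I × I) := Fintype.card_pos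
  have h5 : 2 ^ (3 * m + 1) ≤ 2 ^ (3 * m) := by
    have h6 : Fintype.card (Fin K → I × I × I) * 2 ^ (3 * m + 1) ≤
        Fintype.card (Fin K → I × I × I) * 2 ^ (3 * m) := by
      calc Fintype.card (Fin K → I × I × I) * 2 ^ (3 * m + 1) ≤
            Q.card * Fintype.card (Fin K → I × I × I) := h2
        _ ≤ 2 ^ (3 * m) * Fintype.card (Fin K → I × I × I) := Nat.mul_le_mul_right _ h3
        _ = _ := mul_comm _ _
    exact Nat.le_of_mul_le_mul_left h6 hpos
  have h6 := (Nat.pow_le_pow_iff_right (by norm_num : 1 < 2)).1 h5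
  omega

end

end Pool.Agent.KMS
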