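import Pool.Agent.KMS.HashS

/-! The number of gates of the hash functions. -/

namespace Pool.Agent.KMS

open Finset Pool.Agent.SemRO Pool.Agent.KE Pool.Agent.KMR Pool.Agent.KCV

section
variable {m : ℕ}

/-- the conjunction of many functions -/
theorem ext_all {L : List (BF m)} (h : Slp L) {κ : ℕ} (f : Fin κ → BF m) (hf : ∀ i, Av L (f i)) :
    ∃ L', Ext L L' (2 * κ) ∧ Av L' (fun x => decide (∀ i, f i x = true)) := by
  induction κ with
  | zero =>
    refine ⟨L, Ext.refl h, ?_⟩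
    convert av_const L true using 1
    funext x
    simp
  | succ κ ih =>
    obtain ⟨L1, h1, h2⟩ := ih (fun i => f i.castSucc) (fun i => hf _)
    obtain ⟨L2, h3, h4⟩ := ext_and h1.1 h2 (h1.2.1 _ (hf (Fin.last κ)))
    refine ⟨L2, (h1.trans h3).mono (by omega), ?_⟩
    convert h4 using 1
    funext x
    cases h : f (Fin.last κ) x <;> simp [Fin.forall_fin_succ', h]

/-- the comparison of a value with a bit -/
theorem ext_eq {L : List (BF m)} (h : Slp L) {p : BF m} (hp : Av L p) (b : Bool) :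
    ∃ L', Ext L L' 1 ∧ Av L' (fun x => decide (p x = b)) := by
  cases b
  · obtain ⟨L', h1, h2⟩ := ext_not h hp
    refine ⟨L', h1, ?_⟩
    convert h2 using 1
    funext x
    cases p x <;> rfl
  · refine ⟨L, (Ext.refl h).mono (by omega), ?_⟩
    convert hp using 1
    funext x
    cases p x <;> rfl

/-- a hash condition is computed by few gates -/
theorem cmp_hF {J : ℕ} (G : ∀ j, Fin (nf J j) → Fin (2 ^ j) → Fin m) {r K : ℕ}
    (C : Fin r → Fin K → Ix J × Ix J) (σ : Fin r → ZMod 2) :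
    Cmp m ((J + 1) * (4 * (8 * (2 * J + 3) * 2 ^ J)) + r * (6 * K + 3))
      (fun x => decide (∀ j, hF (fam J G) C x j = σ j)) := by
  obtain ⟨L1, h1, h2⟩ := comp_levels J G (J + 1) le_rfl
  have hform : ∀ L', (∀ g, Av L1 g → Av L' g) → ∀ i : Ix J, Av L' fun x => decide (lin (fam J G i) x = 1) := by
    intro L' hL' i
    unfold fam
    split_ifs with hi
    · exact hL' _ (h2 i.1.1 (by omega) i.2.2)
    · convert av_const L' false using 1
      funext x
      rw [lin_lv, lv_zero]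
      decide
  obtain ⟨L2, h3, h4⟩ := ext_many h1.1 (c := 6 * K + 1)
    (fun j : Fin r => fun x => decide (hF (fam J G) C x j = σ j)) (fun j L' hL' hsub => by
      obtain ⟨L3, h5, h6⟩ := ext_many hL' (c := 2)
        (fun i : Fin K => fun x => (decide (lin (fam J G (C j i).1) x = 1) &&
          decide (lin (fam J G (C j i).2) x = 1))) (fun i L'' hL'' hsub' =>
            ext_and hL'' (hform L'' (fun g hg => hsub' _ (hsub g hg)) _)
              (hform L'' (fun g hg => hsub' _ (hsub g hg)) _))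
      obtain ⟨L4, h7, h8⟩ := ext_sum h5.1 _ h6
      obtain ⟨L5, h9, h10⟩ := ext_eq h7.1 h8 (decide (σ j = 1))
      refine ⟨L5, ((h5.trans h7).trans h9).mono (by omega), ?_⟩
      convert h10 using 1
      funext x
      unfold hF
      have h11 : ∀ i, lin (fam J G (C j i).1) x * lin (fam J G (C j i).2) x =
          zb (decide (lin (fam J G (C j i).1) x = 1) && decide (lin (fam J G (C j i).2) x = 1)) := by
        intro i
        generalize lin (fam J G (C j i).1) x = a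
        generalize lin (fam J G (C j i).2) x = b
        revert a b
        decide
      rw [Finset.sum_congr rfl fun i _ => h11 i]
      generalize ∑ i, zb (decide (lin (fam J G (C j i).1) x = 1) &&
        decide (lin (fam J G (C j i).2) x = 1)) = a
      generalize σ j = b
      revert a b
      decide)
  obtain ⟨L3, h5, h6⟩ := ext_all h3.1 _ h4
  refine ⟨L3, ((h1.trans h3).trans h5).mono (le_of_eq (by ring)), ?_⟩
  convert h6 using 1
  funext x
  exact decide_eq_decide.2 (by simp)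

/-- the number of products is large enough -/
theorem pow_bound2 {A s : ℕ} (hA : 2 ≤ A) :
    ((A : ℤ) ^ 2 - 2) ^ (A ^ 2 * (s * s)) * 2 ^ (s * s) ≤ ((A : ℤ) ^ 2) ^ (A ^ 2 * (s * s)) := by
  have hA4 : 4 ≤ A ^ 2 := by
    calc 4 = 2 ^ 2 := by norm_num
      _ ≤ _ := Nat.pow_le_pow_left hA 2
  obtain ⟨t, ht⟩ : ∃ t, A ^ 2 = t + 1 := ⟨A ^ 2 - 1, by omega⟩
  have hA3 : (A : ℤ) ^ 2 = t + 1 := by exact_mod_cast ht
  have ha : (0 : ℤ) ≤ (A : ℤ) ^ 2 - 2 := by
    have : (4 : ℤ) ≤ (A : ℤ) ^ 2 := by exact_mod_cast hA4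
    linarith
  have h1 := bern ((A : ℤ) ^ 2 - 2) 2 ha (by norm_num) t
  rw [show (A : ℤ) ^ 2 - 2 + 2 = (A : ℤ) ^ 2 by ring] at h1
  have h2 : ((A : ℤ) ^ 2 - 2) ^ (A ^ 2) * 2 ≤ ((A : ℤ) ^ 2) ^ (A ^ 2) := by
    rw [ht]
    refine le_trans ?_ h1
    have h3 : ((A : ℤ) ^ 2 - 2) * ((A : ℤ) ^ 2 - 2) ^ t ≤ ((t : ℤ) + 1) * 2 * ((A : ℤ) ^ 2 - 2) ^ t :=
      mul_le_mul_of_nonneg_right (by
        rw [hA3]
        have : (0 : ℤ) ≤ t := by positivity
        linarith) (pow_nonneg ha _)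
    have h4 : ((A : ℤ) ^ 2 - 2) ^ (t + 1) = ((A : ℤ) ^ 2 - 2) * ((A : ℤ) ^ 2 - 2) ^ t := by ring
    linarith
  rw [pow_mul _ (A ^ 2) (s * s), pow_mul _ (A ^ 2) (s * s), ← mul_pow]
  exact pow_le_pow_left₀ (mul_nonneg (pow_nonneg ha _) (by norm_num)) h2 _

/-- **Hash functions with few gates whose fibres contain no large rectangles.** -/
theorem exists_hash_cmp {s r : ℕ} (hm : 1 ≤ m) (hs : 2 * (s * m) + r < s * s * r) :
    ∃ H : (Fin m → Bool) → Fin r → ZMod 2, ∀ σ : Fin r → ZMod 2, RectFree {x | H x = σ} (2 ^ s) ∧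
      Cmp m (2 ^ 11 * (Nat.log 2 m + 2) ^ 2 * (m + r * s ^ 2)) (fun x => decide (H x = σ)) := by
  have h0 := exists_fam hm
  obtain ⟨J, hJ⟩ : ∃ J, J = Nat.log 2 m := ⟨_, rfl⟩
  have hJ1 : 2 ^ J ≤ m := by rw [hJ]; exact Nat.pow_log_le_self 2 (by omega)
  rw [← hJ] at h0 ⊢
  obtain ⟨G, hG⟩ := h0
  have hpos : 0 < nf J 0 := by
    have := nf_mul (J := J) (j := 0) (by omega)
    rw [pow_zero, one_mul] at this
    rw [this]
    positivity
  have : Nonempty (Ix J) := ⟨⟨⟨0, by omega⟩, ⟨0, by positivity⟩, ⟨0, hpos⟩⟩⟩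
  have hs1 : 1 ≤ s := by
    by_contra h
    have : s = 0 := by omega
    subst this
    omega
  obtain ⟨C, hC⟩ := exists_hashF (A := 16 * (J + 2)) (s := s) (r := r) (by omega) hG
    (pow_bound2 (s := s) (by omega)) hs
  refine ⟨hF (fam J G) C, fun σ => ⟨?_, ?_⟩⟩
  · have e : {x | hF (fam J G) C x = σ} = {x | ∀ j, hF (fam J G) C x j = σ j} := by
      ext x
      exact funext_iff
    rw [e]
    exact hC σ
  · obtain ⟨L, h1, h2⟩ := cmp_hF G C σ
    refine ⟨L, h1.mono ?_, ?_⟩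
    · have e1 : (J + 1) * (4 * (8 * (2 * J + 3) * 2 ^ J)) ≤ 2 ^ 11 * (J + 2) ^ 2 * m := by
        calc (J + 1) * (4 * (8 * (2 * J + 3) * 2 ^ J)) = 32 * ((J + 1) * (2 * J + 3)) * 2 ^ J := by ring
          _ ≤ 32 * ((J + 2) * (2 * (J + 2))) * m := by gcongr <;> omega
          _ ≤ 2 ^ 11 * (J + 2) ^ 2 * m := by
            refine Nat.mul_le_mul_right _ ?_
            nlinarith [Nat.zero_le J, Nat.zero_le (J ^ 2)]
      have e2 : r * (6 * ((16 * (J + 2)) ^ 2 * (s * s)) + 3) ≤ 2 ^ 11 * (J + 2) ^ 2 * (r * s ^ 2) := by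
        have e3 : 1 ≤ (J + 2) ^ 2 * s ^ 2 := Nat.one_le_iff_ne_zero.2 (by positivity)
        calc r * (6 * ((16 * (J + 2)) ^ 2 * (s * s)) + 3) = r * (1536 * ((J + 2) ^ 2 * s ^ 2) + 3) := by ring
          _ ≤ r * (2048 * ((J + 2) ^ 2 * s ^ 2)) := Nat.mul_le_mul_left _ (by omega)
          _ = _ := by ring
      calc _ ≤ 2 ^ 11 * (J + 2) ^ 2 * m + 2 ^ 11 * (J + 2) ^ 2 * (r * s ^ 2) := Nat.add_le_add e1 e2
        _ = _ := by ring
    · convert h2 using 1
      funext x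
      exact decide_eq_decide.2 funext_iff

end

end Pool.Agent.KMS
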