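import Pool.Agent.KMS.Sparse
import Pool.Agent.KMN.HashC

/-! Hash functions that are computed by few gates and whose fibres contain no large rectangles. -/

namespace Pool.Agent.KMS

open Finset Pool.Agent.SemRO Pool.Agent.KE Pool.Agent.KMR Pool.Agent.KCV
open Pool.Agent.KMN (vz exists_indep van)

section
variable {n : ℕ} {I : Type} [Fintype I]

theorem lv_add (α : Fin n → Bool) (v w : Fin n → ZMod 2) : lv α (v + w) = lv α v + lv α w := by
  unfold lv
  rw [← Finset.sum_add_distrib]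
  exact Finset.sum_congr rfl fun l _ => by rw [Pi.add_apply]; ring

theorem lv_smul (α : Fin n → Bool) (c : ZMod 2) (v : Fin n → ZMod 2) : lv α (c • v) = c * lv α v := by
  unfold lv
  rw [Finset.mul_sum]
  exact Finset.sum_congr rfl fun l _ => by rw [Pi.smul_apply, smul_eq_mul]; ring

theorem lv_sum {ι : Type} (s : Finset ι) (α : Fin n → Bool) (v : ι → Fin n → ZMod 2) :
    lv α (∑ i ∈ s, v i) = ∑ i ∈ s, lv α (v i) := by
  unfold lv
  rw [Finset.sum_comm]
  refine Finset.sum_congr rfl fun l _ => ?_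
  rw [Finset.sum_apply, Finset.mul_sum]

/-- the mixed difference of a product of two forms -/
def mmF (F : I → Fin n → Bool) {s : ℕ} (a b : Fin s → Fin n → ZMod 2) (ω : I × I) (p q : Fin s) : ZMod 2 :=
  lv (F ω.1) (a p) * lv (F ω.2) (b q) + lv (F ω.2) (a p) * lv (F ω.1) (b q)

/-- the pairing of a mixed difference with a matrix -/
def pr (F : I → Fin n → Bool) {s : ℕ} (a b : Fin s → Fin n → ZMod 2) (Λ : Fin s × Fin s → Bool)
    (ω : I × I) : ZMod 2 := ∑ t, zb (Λ t) * mmF F a b ω t.1 t.2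

/-- the vector at which the second form is evaluated -/
def wv (F : I → Fin n → Bool) {s : ℕ} (a b : Fin s → Fin n → ZMod 2) (Λ : Fin s × Fin s → Bool)
    (u : I) : Fin n → ZMod 2 :=
  ∑ q, (lv (F u) (∑ p, zb (Λ (p, q)) • a p)) • b q + ∑ p, (lv (F u) (∑ q, zb (Λ (p, q)) • b q)) • a p

theorem pr_eq (F : I → Fin n → Bool) {s : ℕ} (a b : Fin s → Fin n → ZMod 2) (Λ : Fin s × Fin s → Bool)
    (ω : I × I) : pr F a b Λ ω = lv (F ω.2) (wv F a b Λ ω.1) := by
  unfold pr wv mmF
  rw [lv_add, lv_sum, lv_sum, Fintype.sum_prod_type]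
  simp only [lv_smul, lv_sum, Finset.sum_mul, mul_add, Finset.sum_add_distrib]
  congr 1
  · rw [Finset.sum_comm]
    exact Finset.sum_congr rfl fun q _ => Finset.sum_congr rfl fun p _ => by ring
  · exact Finset.sum_congr rfl fun q _ => Finset.sum_congr rfl fun p _ => by ring

theorem wv_ne {F : I → Fin n → Bool} {s : ℕ} {a b : Fin s → Fin n → ZMod 2}
    (hab : LinearIndependent (ZMod 2) (Sum.elim a b)) {Λ : Fin s × Fin s → Bool} {u : I} {q0 : Fin s}
    (h : lv (F u) (∑ p, zb (Λ (p, q0)) • a p) ≠ 0) : wv F a b Λ u ≠ 0 := by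
  intro h0
  have h1 := Fintype.linearIndependent_iff.1 hab
    (Sum.elim (fun p => lv (F u) (∑ q, zb (Λ (p, q)) • b q)) (fun q => lv (F u) (∑ p, zb (Λ (p, q)) • a p))) (by
      rw [Fintype.sum_sum_type]
      simp only [Sum.elim_inl, Sum.elim_inr]
      rw [add_comm]
      exact h0) (Sum.inr q0)
  exact h h1

/-- the sum of the signs of the pairings with a nonzero matrix -/
theorem sum_pr {F : I → Fin n → Bool} {A : ℕ} (hF : Spread F A) {s : ℕ} {a b : Fin s → Fin n → ZMod 2}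
    (hab : LinearIndependent (ZMod 2) (Sum.elim a b)) {Λ : Fin s × Fin s → Bool} (hΛ : ∃ t, Λ t = true) :
    (A : ℤ) ^ 2 * |∑ ω : I × I, ch (pr F a b Λ ω)| ≤ (A ^ 2 - 2) * (Fintype.card I) ^ 2 := by
  classical
  obtain ⟨⟨p0, q0⟩, hΛ0⟩ := hΛ
  obtain ⟨m, hm⟩ : ∃ m : ℤ, m = Fintype.card I := ⟨_, rfl⟩
  have hm0 : 0 ≤ m := by rw [hm]; positivity
  have ha : LinearIndependent (ZMod 2) a := by
    have := hab.comp Sum.inl Sum.inl_injective
    exact this
  have hne : (∑ p, zb (Λ (p, q0)) • a p) ≠ 0 := by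
    intro h0
    have := Fintype.linearIndependent_iff.1 ha _ h0 p0
    rw [hΛ0] at this
    exact absurd this (by decide)
  have hne' : ∃ i, (∑ p, zb (Λ (p, q0)) • a p) i ≠ 0 := by
    by_contra hcon
    push Not at hcon
    exact hne (funext hcon)
  have h1 := (hF _ hne').1
  obtain ⟨c, hc⟩ : ∃ c : ℕ, c = (univ.filter fun u => lv (F u) (∑ p, zb (Λ (p, q0)) • a p) = 1).card :=
    ⟨_, rfl⟩
  rw [← hc] at h1
  have h2 : ∀ u : I, (A : ℤ) * |∑ v, ch (pr F a b Λ (u, v))| ≤
      A * m - 2 * m * (if lv (F u) (∑ p, zb (Λ (p, q0)) • a p) = 1 then (1 : ℤ) else 0) := by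
    intro u
    have e1 : ∀ v, pr F a b Λ (u, v) = lv (F v) (wv F a b Λ u) := fun v => pr_eq F a b Λ (u, v)
    rw [Finset.sum_congr rfl fun v _ => by rw [e1 v]]
    split_ifs with h
    · have h3 := wv_ne hab (F := F) (u := u) (q0 := q0) (Λ := Λ) (by rw [h]; decide)
      have h4 : ∃ i, wv F a b Λ u i ≠ 0 := by
        by_contra hcon
        push Not at hcon
        exact h3 (funext hcon)
      have h5 := sum_ch_F hF h4
      rw [← hm] at h5
      linarith
    · rw [mul_zero, sub_zero]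
      refine mul_le_mul_of_nonneg_left ?_ (by positivity)
      refine (Finset.abs_sum_le_sum_abs _ _).trans ?_
      rw [Finset.sum_congr rfl fun c _ => abs_ch _, Finset.sum_const, Finset.card_univ,
        nsmul_eq_mul, mul_one, hm]
  have h3 : (A : ℤ) * |∑ ω : I × I, ch (pr F a b Λ ω)| ≤ A * m * m - 2 * m * c := by
    rw [Fintype.sum_prod_type]
    refine (mul_le_mul_of_nonneg_left (Finset.abs_sum_le_sum_abs _ _) (by positivity)).trans ?_
    rw [Finset.mul_sum]
    refine (Finset.sum_le_sum fun u _ => h2 u).trans (le_of_eq ?_)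
    rw [Finset.sum_sub_distrib, Finset.sum_const, Finset.card_univ, nsmul_eq_mul, ← Finset.mul_sum,
      Finset.sum_boole, ← hm, ← hc]
    ring
  have h4 : m ≤ (A : ℤ) * c := by
    rw [hm]
    exact_mod_cast h1
  rw [← hm]
  have h5 := mul_le_mul_of_nonneg_left h3 (show (0 : ℤ) ≤ A by positivity)
  have h6 := mul_le_mul_of_nonneg_left h4 (show (0 : ℤ) ≤ 2 * m by positivity)
  nlinarith

/-- the sum of all characters -/
theorem sum_all {ι : Type} [Fintype ι] [DecidableEq ι] (x : ι → ZMod 2) [Decidable (∀ t, x t = 0)] :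
    ∑ Λ : ι → Bool, ch (∑ t, zb (Λ t) * x t) = if ∀ t, x t = 0 then (2 : ℤ) ^ Fintype.card ι else 0 := by
  classical
  have h1 : ∀ Λ : ι → Bool, ch (∑ t, zb (Λ t) * x t) = ∏ t, ch (zb (Λ t) * x t) := fun Λ => ch_sum _ _
  rw [Finset.sum_congr rfl fun Λ _ => h1 Λ]
  have h := Finset.prod_univ_sum (κ := fun _ : ι => Bool) (fun _ : ι => (univ : Finset Bool))
    (fun t c => ch (zb c * x t))
  rw [Fintype.piFinset_univ] at h
  rw [← h]
  have h2 : ∀ t, ∑ c : Bool, ch (zb c * x t) = if x t = 0 then (2 : ℤ) else 0 := by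
    intro t
    rw [Fintype.sum_bool]
    generalize x t = c
    revert c
    decide
  rw [Finset.prod_congr rfl fun t _ => h2 t]
  split_ifs with h3
  · rw [Finset.prod_congr rfl fun t _ => if_pos (h3 t), Finset.prod_const, Finset.card_univ]
  · push Not at h3
    obtain ⟨t, ht⟩ := h3
    exact Finset.prod_eq_zero (Finset.mem_univ t) (if_neg ht)

open Classical in
/-- few choices of one sum of products are bad -/
theorem bad_one {F : I → Fin n → Bool} {A : ℕ} (hA : 2 ≤ A) (hF : Spread F A) {s K : ℕ}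
    {a b : Fin s → Fin n → ZMod 2} (hab : LinearIndependent (ZMod 2) (Sum.elim a b))
    (hK : ((A : ℤ) ^ 2 - 2) ^ K * 2 ^ (s * s) ≤ ((A : ℤ) ^ 2) ^ K) :
    2 ^ (s * s) * (univ.filter fun c : Fin K → I × I => ∀ t : Fin s × Fin s,
      ∑ i, mmF F a b (c i) t.1 t.2 = 0).card ≤ 2 * (Fintype.card I ^ 2) ^ K := by
  obtain ⟨N0, hN0⟩ : ∃ N0, N0 = (univ.filter fun c : Fin K → I × I => ∀ t : Fin s × Fin s,
      ∑ i, mmF F a b (c i) t.1 t.2 = 0).card := ⟨_, rfl⟩
  obtain ⟨M, hM⟩ : ∃ M : ℤ, M = (Fintype.card I : ℤ) ^ 2 := ⟨_, rfl⟩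
  obtain ⟨x, hx⟩ : ∃ x : ℤ, x = (A : ℤ) ^ 2 := ⟨_, rfl⟩
  have hM0 : 0 ≤ M := by rw [hM]; positivity
  have hx4 : 4 ≤ x := by
    rw [hx]
    have : (2 : ℤ) ≤ A := by exact_mod_cast hA
    nlinarith
  have e1 : (2 : ℤ) ^ (s * s) * N0 = ∑ Λ : Fin s × Fin s → Bool, (∑ ω : I × I, ch (pr F a b Λ ω)) ^ K := by
    have h1 : ∀ c : Fin K → I × I, ∑ Λ : Fin s × Fin s → Bool,
        ch (∑ t, zb (Λ t) * ∑ i, mmF F a b (c i) t.1 t.2) =
        if ∀ t : Fin s × Fin s, ∑ i, mmF F a b (c i) t.1 t.2 = 0 then (2 : ℤ) ^ (s * s) else 0 := by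
      intro c
      rw [sum_all]
      simp
    have h2 : ∑ c : Fin K → I × I, ∑ Λ : Fin s × Fin s → Bool,
        ch (∑ t, zb (Λ t) * ∑ i, mmF F a b (c i) t.1 t.2) = (2 : ℤ) ^ (s * s) * N0 := by
      rw [Finset.sum_congr rfl fun c _ => h1 c, ← Finset.sum_filter, Finset.sum_const, nsmul_eq_mul, hN0,
        mul_comm]
    rw [← h2, Finset.sum_comm]
    refine Finset.sum_congr rfl fun Λ _ => ?_
    have h := Finset.prod_univ_sum (κ := fun _ : Fin K => I × I) (fun _ : Fin K => (univ : Finset (I × I)))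
      (fun _ ω => ch (pr F a b Λ ω))
    rw [Fintype.piFinset_univ, Finset.prod_const, Finset.card_univ, Fintype.card_fin] at h
    rw [h]
    refine Finset.sum_congr rfl fun c _ => ?_
    rw [← ch_sum]
    congr 1
    unfold pr
    rw [Finset.sum_comm]
    refine Finset.sum_congr rfl fun t _ => ?_
    rw [Finset.mul_sum]
  have e2 : ∀ Λ : Fin s × Fin s → Bool, x ^ K * (∑ ω : I × I, ch (pr F a b Λ ω)) ^ K ≤
      (if ∀ t, Λ t = false then x ^ K * M ^ K else 0) + (x - 2) ^ K * M ^ K := by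
    intro Λ
    have hp : 0 ≤ (x - 2) ^ K * M ^ K := mul_nonneg (pow_nonneg (by linarith) _) (pow_nonneg hM0 _)
    split_ifs with h
    · have h3 : (∑ ω : I × I, ch (pr F a b Λ ω)) ^ K ≤ M ^ K := by
        refine (le_abs_self _).trans ?_
        rw [abs_pow]
        refine pow_le_pow_left₀ (abs_nonneg _) ?_ K
        refine (Finset.abs_sum_le_sum_abs _ _).trans ?_
        rw [Finset.sum_congr rfl fun ω _ => abs_ch _, Finset.sum_const, Finset.card_univ,
          Fintype.card_prod, nsmul_eq_mul, mul_one, hM]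
        push_cast
        refine le_of_eq ?_
        ring
      have h4 := mul_le_mul_of_nonneg_left h3 (show 0 ≤ x ^ K from pow_nonneg (by linarith) _)
      linarith
    · push Not at h
      have h3 := sum_pr hF hab (Λ := Λ) (by
        obtain ⟨t, ht⟩ := h
        exact ⟨t, by simpa using ht⟩)
      rw [← hx, ← hM] at h3
      rw [zero_add, ← mul_pow]
      refine (le_abs_self _).trans ?_
      rw [abs_pow, ← mul_pow]
      refine pow_le_pow_left₀ (abs_nonneg _) ?_ K
      rw [abs_mul, abs_of_nonneg (show 0 ≤ x by linarith)]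
      exact h3
  have e3 : x ^ K * ((2 : ℤ) ^ (s * s) * N0) ≤ x ^ K * M ^ K + 2 ^ (s * s) * ((x - 2) ^ K * M ^ K) := by
    rw [e1, Finset.mul_sum]
    refine (Finset.sum_le_sum fun Λ _ => e2 Λ).trans ?_
    rw [Finset.sum_add_distrib, Finset.sum_const, Finset.card_univ, Fintype.card_fun, Fintype.card_bool,
      Fintype.card_prod, Fintype.card_fin, nsmul_eq_mul, ← Finset.sum_filter]
    have h3 : (univ.filter fun Λ : Fin s × Fin s → Bool => ∀ t, Λ t = false) = {fun _ => false} := by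
      ext Λ
      simp [funext_iff]
    rw [h3, Finset.sum_singleton]
    push_cast
    exact le_rfl
  have e4 : 2 ^ (s * s) * ((x - 2) ^ K * M ^ K) ≤ x ^ K * M ^ K := by
    rw [← hx] at hK
    have := mul_le_mul_of_nonneg_right hK (show 0 ≤ M ^ K from pow_nonneg hM0 _)
    linarith
  have e5 : x ^ K * ((2 : ℤ) ^ (s * s) * N0) ≤ x ^ K * (2 * M ^ K) := by linarith
  have e6 := le_of_mul_le_mul_left e5 (pow_pos (by linarith) _)
  rw [← hN0]
  have e7 : ((2 ^ (s * s) * N0 : ℕ) : ℤ) ≤ ((2 * (Fintype.card I ^ 2) ^ K : ℕ) : ℤ) := by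
    push_cast
    rw [← hM]
    exact e6
  exact_mod_cast e7

/-- the hash value: coordinate `j` is a sum of products of two forms -/
def hF (F : I → Fin n → Bool) {r K : ℕ} (C : Fin r → Fin K → I × I) (x : Fin n → Bool) (j : Fin r) : ZMod 2 :=
  ∑ i, lin (F (C j i).1) x * lin (F (C j i).2) x

/-- **For most choices no pair of independent families is bad.** -/
theorem exists_formsF [Nonempty I] {F : I → Fin n → Bool} {A : ℕ} (hA : 2 ≤ A) (hFs : Spread F A)
    {s r K : ℕ} (hK : ((A : ℤ) ^ 2 - 2) ^ K * 2 ^ (s * s) ≤ ((A : ℤ) ^ 2) ^ K)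
    (hs : 2 * (s * n) + r < s * s * r) :
    ∃ C : Fin r → Fin K → I × I, ∀ a b : Fin s → Fin n → ZMod 2,
      LinearIndependent (ZMod 2) (Sum.elim a b) →
        ∃ (j : Fin r) (t : Fin s × Fin s), ∑ i, mmF F a b (C j i) t.1 t.2 ≠ 0 := by
  classical
  by_contra hcon
  push Not at hcon
  have hV : Fintype.card (Fin n → ZMod 2) = 2 ^ n := by
    rw [Fintype.card_fun, ZMod.card, Fintype.card_fin]
  obtain ⟨M, hM⟩ : ∃ M, M = (Fintype.card I ^ 2) ^ K := ⟨_, rfl⟩
  have hM0 : 0 < M := by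
    rw [hM]
    have := Fintype.card_pos (α := I)
    positivity
  set Q : Finset ((Fin s → Fin n → ZMod 2) × (Fin s → Fin n → ZMod 2)) :=
    univ.filter fun p => LinearIndependent (ZMod 2) (Sum.elim p.1 p.2) with hQ
  have hcov : (univ : Finset (Fin r → Fin K → I × I)) ⊆ Q.biUnion fun p =>
      Fintype.piFinset fun _ : Fin r => univ.filter fun c : Fin K → I × I => ∀ t : Fin s × Fin s,
        ∑ i, mmF F p.1 p.2 (c i) t.1 t.2 = 0 := by
    intro C _
    obtain ⟨a, b, hab, h⟩ := hcon C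
    refine Finset.mem_biUnion.2 ⟨(a, b), Finset.mem_filter.2 ⟨Finset.mem_univ _, hab⟩, ?_⟩
    exact Fintype.mem_piFinset.2 fun j => Finset.mem_filter.2 ⟨Finset.mem_univ _, fun t => h j t⟩
  have h1 := (Finset.card_le_card hcov).trans Finset.card_biUnion_le
  have h3 : ∀ p ∈ Q, (2 ^ (s * s)) ^ r * (Fintype.piFinset fun _ : Fin r =>
      univ.filter fun c : Fin K → I × I => ∀ t : Fin s × Fin s,
        ∑ i, mmF F p.1 p.2 (c i) t.1 t.2 = 0).card ≤ (2 * M) ^ r := by
    intro p hp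
    have hab := (Finset.mem_filter.1 hp).2
    rw [Fintype.card_piFinset_const, ← mul_pow]
    refine Nat.pow_le_pow_left ?_ r
    rw [hM]
    exact bad_one hA hFs hab hK
  have h4 : Q.card ≤ 2 ^ (2 * (s * n)) := by
    refine (Finset.card_filter_le _ _).trans (le_of_eq ?_)
    rw [Finset.card_univ, Fintype.card_prod, Fintype.card_fun, hV, Fintype.card_fin, ← pow_mul, ← pow_add]
    congr 1
    ring
  have h5 : Fintype.card (Fin r → Fin K → I × I) = M ^ r := by
    rw [Fintype.card_fun, Fintype.card_fun, Fintype.card_prod, Fintype.card_fin, Fintype.card_fin, hM, pow_two]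
  have h6 : (2 ^ (s * s)) ^ r * M ^ r ≤ 2 ^ (2 * (s * n)) * (2 * M) ^ r := by
    rw [← h5, ← Finset.card_univ]
    refine (Nat.mul_le_mul_left _ h1).trans ?_
    rw [Finset.mul_sum]
    refine (Finset.sum_le_card_nsmul _ _ _ h3).trans ?_
    rw [smul_eq_mul]
    exact Nat.mul_le_mul_right _ h4
  have h7 : 2 ^ (s * s * r) * M ^ r ≤ 2 ^ (2 * (s * n) + r) * M ^ r := by
    calc 2 ^ (s * s * r) * M ^ r = (2 ^ (s * s)) ^ r * M ^ r := by rw [← pow_mul]
      _ ≤ 2 ^ (2 * (s * n)) * (2 * M) ^ r := h6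
      _ = _ := by rw [mul_pow, pow_add]; ring
  have h8 := Nat.le_of_mul_le_mul_right h7 (pow_pos hM0 r)
  have h9 := (Nat.pow_le_pow_iff_right (by norm_num : 1 < 2)).1 h8
  omega

/-- **Hash functions without large rectangles.** -/
theorem exists_hashF [Nonempty I] {F : I → Fin n → Bool} {A : ℕ} (hA : 2 ≤ A) (hFs : Spread F A)
    {s r K : ℕ} (hK : ((A : ℤ) ^ 2 - 2) ^ K * 2 ^ (s * s) ≤ ((A : ℤ) ^ 2) ^ K)
    (hs : 2 * (s * n) + r < s * s * r) :
    ∃ C : Fin r → Fin K → I × I, ∀ σ : Fin r → ZMod 2, RectFree {x | ∀ j, hF F C x j = σ j} (2 ^ s) := by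
  classical
  obtain ⟨C, hC⟩ := exists_formsF hA hFs hK hs
  refine ⟨C, fun σ => ?_⟩
  intro A' uu vv hu hv
  by_contra hcon
  push Not at hcon
  set i0 : Fin (2 ^ s) := ⟨0, by positivity⟩ with hi0
  set d : Fin (2 ^ s) → Fin n → ZMod 2 := fun i l => if l ∈ A' then vz (uu i) l - vz (uu i0) l else 0
    with hd
  set d' : Fin (2 ^ s) → Fin n → ZMod 2 := fun i l => if l ∈ A' then 0 else vz (vv i) l - vz (vv i0) l
    with hd'
  have zinj : ∀ a b : Bool, zb a = zb b → a = b := by decide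
  have hdi : Function.Injective d := by
    intro i j hij
    by_contra hne
    obtain ⟨l, hl, hne'⟩ := hu i j hne
    have h5 := congrFun hij l
    simp only [hd, if_pos hl] at h5
    exact hne' (zinj _ _ (sub_left_injective h5))
  have hdi' : Function.Injective d' := by
    intro i j hij
    by_contra hne
    obtain ⟨l, hl, hne'⟩ := hv i j hne
    have h5 := congrFun hij l
    simp only [hd', if_neg hl] at h5
    exact hne' (zinj _ _ (sub_left_injective h5))
  obtain ⟨a, ha, had⟩ := exists_indep hdi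
  obtain ⟨b, hb, hbd⟩ := exists_indep hdi'
  have hab : LinearIndependent (ZMod 2) (Sum.elim a b) := by
    refine ha.sum_type hb ?_
    have s1 : Submodule.span (ZMod 2) (Set.range a) ≤ van {l | l ∉ A'} := by
      rw [Submodule.span_le]
      rintro _ ⟨p, rfl⟩
      obtain ⟨i, hi⟩ := had p
      rw [hi]
      intro l hl
      have hl' : l ∉ A' := hl
      simp only [hd]
      rw [if_neg hl']
    have s2 : Submodule.span (ZMod 2) (Set.range b) ≤ van {l | l ∈ A'} := by
      rw [Submodule.span_le]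
      rintro _ ⟨p, rfl⟩
      obtain ⟨i, hi⟩ := hbd p
      rw [hi]
      intro l hl
      have hl' : l ∈ A' := hl
      simp only [hd']
      rw [if_pos hl']
    refine Disjoint.mono s1 s2 ?_
    rw [Submodule.disjoint_def]
    intro x h1 h2
    funext l
    by_cases hl : l ∈ A'
    · exact h2 l hl
    · exact h1 l hl
  obtain ⟨j, ⟨p, q⟩, hj⟩ := hC a b hab
  apply hj
  obtain ⟨i, hi⟩ := had p
  obtain ⟨i', hi'⟩ := hbd q
  set x0 := vz (mix A' (uu i0) (vv i0)) with hx0
  have hx : ∀ k k', vz (mix A' (uu k) (vv k')) = x0 + d k + d' k' := by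
    intro k k'
    funext l
    rw [Pi.add_apply, Pi.add_apply]
    simp only [hx0, hd, hd', vz, mix]
    by_cases hl : l ∈ A'
    · simp only [if_pos hl]
      ring
    · simp only [if_neg hl]
      ring
  have hd0 : d i0 = 0 := by
    funext l
    simp only [hd]
    split_ifs <;> simp
  have hd0' : d' i0 = 0 := by
    funext l
    simp only [hd']
    split_ifs <;> simp
  have hlin : ∀ (α : Fin n → Bool) (k k' : Fin (2 ^ s)), lin α (mix A' (uu k) (vv k')) =
      lv α (x0 + d k + d' k') := by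
    intro α k k'
    rw [lin_lv, ← hx]
    rfl
  have hσ : ∀ k k', ∑ c, lv (F (C j c).1) (x0 + d k + d' k') * lv (F (C j c).2) (x0 + d k + d' k') = σ j := by
    intro k k'
    have h := hcon k k' j
    unfold hF at h
    rw [← h]
    exact Finset.sum_congr rfl fun c _ => by rw [hlin, hlin]
  have e1 := hσ i i'
  have e2 := hσ i i0
  have e3 := hσ i0 i'
  have e4 := hσ i0 i0
  have e5 : ∑ c, mmF F a b (C j c) p q =
      ∑ c, lv (F (C j c).1) (x0 + d i + d' i') * lv (F (C j c).2) (x0 + d i + d' i') -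
      ∑ c, lv (F (C j c).1) (x0 + d i + d' i0) * lv (F (C j c).2) (x0 + d i + d' i0) -
      ∑ c, lv (F (C j c).1) (x0 + d i0 + d' i') * lv (F (C j c).2) (x0 + d i0 + d' i') +
      ∑ c, lv (F (C j c).1) (x0 + d i0 + d' i0) * lv (F (C j c).2) (x0 + d i0 + d' i0) := by
    rw [← Finset.sum_sub_distrib, ← Finset.sum_sub_distrib, ← Finset.sum_add_distrib]
    refine Finset.sum_congr rfl fun c _ => ?_
    unfold mmF
    rw [hi, hi', hd0, hd0']
    simp only [lv_add, add_zero]
    ring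
  show ∑ c, mmF F a b (C j c) p q = 0
  rw [e5, e1, e2, e3, e4]
  ring

end

end Pool.Agent.KMS
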