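import Pool.Agent.KMS.Bal

/-! Parities of few random positions hit every vector of a given weight often. -/

namespace Pool.Agent.KMS

open Finset Pool.Agent.KE Pool.Agent.KMR

section
variable {m : ℕ}

/-- the form that adds up the coordinates in the list `q` -/
def fc {t : ℕ} (q : Fin t → Fin m) (l : Fin m) : Bool :=
  decide (∑ r, (if q r = l then (1 : ZMod 2) else 0) = 1)

theorem zb_dec (a : ZMod 2) : zb (decide (a = 1)) = a := by
  revert a
  decide

theorem lv_fc {t : ℕ} (q : Fin t → Fin m) (v : Fin m → ZMod 2) : lv (fc q) v = ∑ r, v (q r) := by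
  unfold lv fc
  simp only [zb_dec, Finset.sum_mul]
  rw [Finset.sum_comm]
  refine Finset.sum_congr rfl fun r _ => ?_
  simp

theorem lin_lv (α x : Fin m → Bool) : lin α x = lv α fun l => zb (x l) := by
  rw [lin_eq]
  rfl

theorem lin_fc {t : ℕ} (q : Fin t → Fin m) (x : Fin m → Bool) : lin (fc q) x = ∑ r, zb (x (q r)) := by
  rw [lin_lv, lv_fc]

/-- the weight of a vector -/
def wtv (v : Fin m → ZMod 2) : ℕ := (univ.filter fun i => v i = 1).card

theorem sum_ch_wt (v : Fin m → ZMod 2) : ∑ i, ch (v i) = (m : ℤ) - 2 * wtv v := by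
  have h : ∀ i, ch (v i) = 1 - 2 * (if v i = 1 then (1 : ℤ) else 0) := by
    intro i
    generalize v i = a
    revert a
    decide
  rw [Finset.sum_congr rfl fun i _ => h i, Finset.sum_sub_distrib, ← Finset.mul_sum, Finset.sum_boole]
  simp [wtv]

/-- the number of lists with the sum zero -/
def nz (t : ℕ) (v : Fin m → ZMod 2) : ℕ :=
  (univ.filter fun q : Fin t → Fin m => ∑ r, v (q r) = 0).card

/-- the number of lists with the sum one -/
def no (t : ℕ) (v : Fin m → ZMod 2) : ℕ :=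
  (univ.filter fun q : Fin t → Fin m => ∑ r, v (q r) = 1).card

theorem nz_no (t : ℕ) (v : Fin m → ZMod 2) : nz t v + no t v = m ^ t := by
  have h : Fintype.card (Fin t → Fin m) = m ^ t := by simp
  rw [← h, ← Finset.card_univ, ← Finset.card_filter_add_card_filter_not (s := univ)
      (p := fun q : Fin t → Fin m => ∑ r, v (q r) = 0)]
  unfold nz no
  congr 2
  refine Finset.filter_congr fun q _ => ?_
  generalize ∑ r, v (q r) = a
  revert a
  decide

theorem nz_sub (t : ℕ) (v : Fin m → ZMod 2) : (nz t v : ℤ) - no t v = ((m : ℤ) - 2 * wtv v) ^ t := by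
  have h1 := Finset.prod_univ_sum (κ := fun _ : Fin t => Fin m) (fun _ : Fin t => (univ : Finset (Fin m)))
    (fun _ i => ch (v i))
  rw [Fintype.piFinset_univ, Finset.prod_const, Finset.card_univ, Fintype.card_fin, sum_ch_wt] at h1
  rw [h1]
  have h2 : ∀ q : Fin t → Fin m, ∏ r, ch (v (q r)) =
      (if ∑ r, v (q r) = 0 then (1 : ℤ) else 0) - (if ∑ r, v (q r) = 1 then (1 : ℤ) else 0) := by
    intro q
    rw [← ch_sum]
    generalize ∑ r, v (q r) = a
    revert a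
    decide
  rw [Finset.sum_congr rfl fun q _ => h2 q, Finset.sum_sub_distrib, Finset.sum_boole, Finset.sum_boole]
  rfl

theorem bern (a b : ℤ) (ha : 0 ≤ a) (hb : 0 ≤ b) (t : ℕ) :
    a ^ (t + 1) + (t + 1) * b * a ^ t ≤ (a + b) ^ (t + 1) := by
  induction t with
  | zero => simp
  | succ t ih =>
    have h1 : (a + b) * (a ^ (t + 1) + (t + 1) * b * a ^ t) ≤ (a + b) * (a + b) ^ (t + 1) :=
      mul_le_mul_of_nonneg_left ih (by linarith)
    have h2 : (a + b) * (a ^ (t + 1) + (t + 1) * b * a ^ t) =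
        a ^ (t + 1 + 1) + (((t + 1 : ℕ) : ℤ) + 1) * b * a ^ (t + 1) + (t + 1) * b ^ 2 * a ^ t := by
      push_cast
      ring
    have h3 : 0 ≤ ((t : ℤ) + 1) * b ^ 2 * a ^ t := by positivity
    calc a ^ (t + 1 + 1) + (((t + 1 : ℕ) : ℤ) + 1) * b * a ^ (t + 1) ≤
        a ^ (t + 1 + 1) + (((t + 1 : ℕ) : ℤ) + 1) * b * a ^ (t + 1) + (t + 1) * b ^ 2 * a ^ t := by
          linarith
      _ ≤ (a + b) * (a + b) ^ (t + 1) := by rw [← h2]; exact h1
      _ = _ := by ring

/-- at most three quarters of the lists have the sum zero -/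
theorem nz_le {j : ℕ} (v : Fin m → ZMod 2) (h1 : 2 ^ j * wtv v ≤ m) (h2 : m < 2 * (2 ^ j * wtv v)) :
    4 * nz (2 ^ j) v ≤ 3 * m ^ 2 ^ j := by
  have e1 := nz_no (2 ^ j) v
  have e2 := nz_sub (2 ^ j) v
  obtain ⟨w, hw⟩ : ∃ w, w = wtv v := ⟨_, rfl⟩
  rw [← hw] at h1 h2 e2
  have key : 2 * ((m : ℤ) - 2 * w) ^ 2 ^ j ≤ (m : ℤ) ^ 2 ^ j := by
    rcases Nat.eq_zero_or_pos j with hj | hj
    · subst hj
      simp only [pow_zero, pow_one, one_mul] at h1 h2 ⊢
      have h2' : (m : ℤ) < 2 * w := by exact_mod_cast h2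
      have : (0 : ℤ) ≤ m := by positivity
      linarith
    · obtain ⟨t, ht⟩ : ∃ t, 2 ^ j = t + 1 := ⟨2 ^ j - 1, by have := Nat.one_le_two_pow (n := j); omega⟩
      have h2j : 2 ≤ 2 ^ j := by
        calc 2 = 2 ^ 1 := by norm_num
          _ ≤ 2 ^ j := Nat.pow_le_pow_right (by norm_num) hj
      have hmw : 2 * w ≤ m := (Nat.mul_le_mul_right w h2j).trans h1
      have ha : (0 : ℤ) ≤ (m : ℤ) - 2 * w := by
        have : ((2 * w : ℕ) : ℤ) ≤ m := by exact_mod_cast hmw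
        push_cast at this
        linarith
      have hb := bern ((m : ℤ) - 2 * w) (2 * w) ha (by positivity) t
      have h3 : (m : ℤ) - 2 * w + 2 * w = m := by ring
      rw [h3] at hb
      have h4 : (m : ℤ) - 2 * w ≤ ((t : ℤ) + 1) * (2 * w) := by
        have h5 : ((m : ℕ) : ℤ) ≤ ((2 * ((t + 1) * w) : ℕ) : ℤ) := by
          rw [← ht]
          exact_mod_cast h2.le
        push_cast at h5
        have : (0 : ℤ) ≤ w := by positivity
        nlinarith
      have h6 : ((m : ℤ) - 2 * w) * ((m : ℤ) - 2 * w) ^ t ≤ ((t : ℤ) + 1) * (2 * w) * ((m : ℤ) - 2 * w) ^ t :=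
        mul_le_mul_of_nonneg_right h4 (pow_nonneg ha _)
      rw [ht]
      have h7 : ((m : ℤ) - 2 * w) ^ (t + 1) = ((m : ℤ) - 2 * w) * ((m : ℤ) - 2 * w) ^ t := by ring
      linarith
  have e1' : (nz (2 ^ j) v : ℤ) + no (2 ^ j) v = (m : ℤ) ^ 2 ^ j := by exact_mod_cast e1
  have : (4 * nz (2 ^ j) v : ℤ) ≤ 3 * (m : ℤ) ^ 2 ^ j := by linarith
  exact_mod_cast this

/-- the number of forms of a family that vanish at a vector -/
def zf {R t : ℕ} (G : Fin R → Fin t → Fin m) (v : Fin m → ZMod 2) : ℕ :=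
  (univ.filter fun i => ∑ r, v (G i r) = 0).card

/-- the number of forms of a family with the value one at a vector -/
def of {R t : ℕ} (G : Fin R → Fin t → Fin m) (v : Fin m → ZMod 2) : ℕ :=
  (univ.filter fun i => ∑ r, v (G i r) = 1).card

theorem zf_of {R t : ℕ} (G : Fin R → Fin t → Fin m) (v : Fin m → ZMod 2) : zf G v + of G v = R := by
  have h : Fintype.card (Fin R) = R := Fintype.card_fin R
  conv_rhs => rw [← h]
  rw [← Finset.card_univ, ← Finset.card_filter_add_card_filter_not (s := univ)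
      (p := fun i : Fin R => ∑ r, v (G i r) = 0)]
  unfold zf of
  congr 2
  refine Finset.filter_congr fun q _ => ?_
  generalize ∑ r, v (G q r) = a
  revert a
  decide

theorem sum_pow_zf (R t : ℕ) (v : Fin m → ZMod 2) :
    ∑ G : Fin R → Fin t → Fin m, 16 ^ zf G v = (16 * nz t v + no t v) ^ R := by
  have h := Finset.prod_univ_sum (κ := fun _ : Fin R => Fin t → Fin m)
    (fun _ : Fin R => (univ : Finset (Fin t → Fin m)))
    (fun _ q => if ∑ r, v (q r) = 0 then (16 : ℕ) else 1)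
  rw [Fintype.piFinset_univ, Finset.prod_const, Finset.card_univ, Fintype.card_fin] at h
  have h1 : ∑ q : Fin t → Fin m, (if ∑ r, v (q r) = 0 then (16 : ℕ) else 1) = 16 * nz t v + no t v := by
    have h2 : ∀ q : Fin t → Fin m, (if ∑ r, v (q r) = 0 then (16 : ℕ) else 1) =
        16 * (if ∑ r, v (q r) = 0 then 1 else 0) + (if ∑ r, v (q r) = 1 then 1 else 0) := by
      intro q
      generalize ∑ r, v (q r) = a
      revert a
      decide
    rw [Finset.sum_congr rfl fun q _ => h2 q, Finset.sum_add_distrib, ← Finset.mul_sum, Finset.sum_boole,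
      Finset.sum_boole]
    rfl
  rw [h1] at h
  rw [h]
  refine Finset.sum_congr rfl fun G _ => ?_
  rw [Finset.prod_ite, Finset.prod_const, Finset.prod_const_one, mul_one]
  rfl

/-- few families are bad for a vector -/
theorem bad_level {j σ : ℕ} (v : Fin m → ZMod 2) (h1 : 2 ^ j * wtv v ≤ m) (h2 : m < 2 * (2 ^ j * wtv v)) :
    (univ.filter fun G : Fin (8 * σ) → Fin (2 ^ j) → Fin m => 16 * of G v < 8 * σ).card * 2 ^ σ ≤
      Fintype.card (Fin (8 * σ) → Fin (2 ^ j) → Fin m) := by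
  obtain ⟨M, hM⟩ : ∃ M : ℕ, M = m ^ 2 ^ j := ⟨_, rfl⟩
  set B := univ.filter fun G : Fin (8 * σ) → Fin (2 ^ j) → Fin m => 16 * of G v < 8 * σ with hB
  have hc : Fintype.card (Fin (8 * σ) → Fin (2 ^ j) → Fin m) = M ^ (8 * σ) := by
    rw [Fintype.card_fun, Fintype.card_fun, Fintype.card_fin, Fintype.card_fin, Fintype.card_fin, hM]
  have e1 : B.card * 4 ^ (15 * σ) ≤ ∑ G : Fin (8 * σ) → Fin (2 ^ j) → Fin m, 16 ^ zf G v := by
    calc B.card * 4 ^ (15 * σ) = ∑ _G ∈ B, 4 ^ (15 * σ) := by rw [Finset.sum_const, smul_eq_mul]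
      _ ≤ ∑ G ∈ B, 16 ^ zf G v := by
          refine Finset.sum_le_sum fun G hG => ?_
          have h3 := (Finset.mem_filter.1 hG).2
          have h4 := zf_of G v
          rw [show (16 : ℕ) = 4 ^ 2 by norm_num, ← pow_mul]
          exact Nat.pow_le_pow_right (by norm_num) (by omega)
      _ ≤ _ := Finset.sum_le_sum_of_subset (Finset.subset_univ _)
  rw [sum_pow_zf] at e1
  have e2 : 4 * (16 * nz (2 ^ j) v + no (2 ^ j) v) ≤ 49 * M := by
    have h3 := nz_le v h1 h2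
    have h4 := nz_no (2 ^ j) v
    rw [← hM] at h3 h4
    omega
  have e3 : 4 ^ (8 * σ) * (16 * nz (2 ^ j) v + no (2 ^ j) v) ^ (8 * σ) ≤ 49 ^ (8 * σ) * M ^ (8 * σ) := by
    rw [← mul_pow, ← mul_pow]
    exact Nat.pow_le_pow_left e2 _
  have e4 : 49 ^ (8 * σ) * 2 ^ σ ≤ 4 ^ (8 * σ) * 4 ^ (15 * σ) := by
    rw [pow_mul, pow_mul, pow_mul, ← mul_pow, ← mul_pow]
    exact Nat.pow_le_pow_left (by norm_num) _
  rw [hc]
  have hpos : 0 < 4 ^ (8 * σ) * 4 ^ (15 * σ) := by positivity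
  refine le_of_mul_le_mul_right ?_ hpos
  calc B.card * 2 ^ σ * (4 ^ (8 * σ) * 4 ^ (15 * σ))
      = (B.card * 4 ^ (15 * σ)) * (4 ^ (8 * σ) * 2 ^ σ) := by ring
    _ ≤ (16 * nz (2 ^ j) v + no (2 ^ j) v) ^ (8 * σ) * (4 ^ (8 * σ) * 2 ^ σ) := Nat.mul_le_mul_right _ e1
    _ = (4 ^ (8 * σ) * (16 * nz (2 ^ j) v + no (2 ^ j) v) ^ (8 * σ)) * 2 ^ σ := by ring
    _ ≤ (49 ^ (8 * σ) * M ^ (8 * σ)) * 2 ^ σ := Nat.mul_le_mul_right _ e3
    _ = M ^ (8 * σ) * (49 ^ (8 * σ) * 2 ^ σ) := by ring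
    _ ≤ M ^ (8 * σ) * (4 ^ (8 * σ) * 4 ^ (15 * σ)) := Nat.mul_le_mul_left _ e4

/-- there are few vectors of small weight -/
theorem card_light (k : ℕ) : (univ.filter fun v : Fin m → ZMod 2 => wtv v ≤ k).card ≤ (m + 1) ^ k := by
  classical
  have h : Fintype.card (Fin k → Option (Fin m)) = (m + 1) ^ k := by simp
  rw [← h, ← Finset.card_univ]
  refine Finset.card_le_card_of_surjOn (fun s i => if ∃ r, s r = some i then (1 : ZMod 2) else 0) ?_
  intro v hv
  have hv : wtv v ≤ k := by simpa using hv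
  obtain ⟨S, hS⟩ : ∃ S : Finset (Fin m), S = univ.filter fun i => v i = 1 := ⟨_, rfl⟩
  have hSk : S.card ≤ k := by rw [hS]; exact hv
  refine ⟨fun r => if h : r.1 < S.card then some (S.equivFin.symm ⟨r.1, h⟩).1 else none, by simp, ?_⟩
  funext i
  have hiff : (∃ r : Fin k, (if h : r.1 < S.card then some (S.equivFin.symm ⟨r.1, h⟩).1 else none) =
      some i) ↔ v i = 1 := by
    constructor
    · rintro ⟨r, hr⟩
      split_ifs at hr with h
      have h1 : (S.equivFin.symm ⟨r.1, h⟩).1 = i := Option.some.inj hr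
      have h2 := (S.equivFin.symm ⟨r.1, h⟩).2
      rw [h1, hS] at h2
      exact (Finset.mem_filter.1 h2).2
    · intro hi
      have hiS : i ∈ S := by rw [hS]; exact Finset.mem_filter.2 ⟨Finset.mem_univ _, hi⟩
      refine ⟨⟨(S.equivFin ⟨i, hiS⟩).1, lt_of_lt_of_le (S.equivFin ⟨i, hiS⟩).2 hSk⟩, ?_⟩
      rw [dif_pos (S.equivFin ⟨i, hiS⟩).2]
      simp
  simp only
  by_cases hi : v i = 1
  · rw [if_pos (hiff.2 hi), hi]
  · rw [if_neg fun h => hi (hiff.1 h)]
    revert hi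
    generalize v i = a
    revert a
    decide

/-- **A good family at one level.** -/
theorem exists_level {j σ k : ℕ} (hk : m < 2 ^ j * (k + 1)) (hσ : (m + 1) ^ k < 2 ^ σ) (hm : 1 ≤ m) :
    ∃ G : Fin (8 * σ) → Fin (2 ^ j) → Fin m, ∀ v : Fin m → ZMod 2,
      2 ^ j * wtv v ≤ m → m < 2 * (2 ^ j * wtv v) → 8 * σ ≤ 16 * of G v := by
  classical
  by_contra hcon
  push Not at hcon
  set Q : Finset (Fin m → ZMod 2) := univ.filter fun v => 2 ^ j * wtv v ≤ m ∧ m < 2 * (2 ^ j * wtv v) with hQ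
  have hcov : (univ : Finset (Fin (8 * σ) → Fin (2 ^ j) → Fin m)) ⊆ Q.biUnion fun v =>
      univ.filter fun G => 16 * of G v < 8 * σ := by
    intro G _
    obtain ⟨v, h1, h2, h3⟩ := hcon G
    exact Finset.mem_biUnion.2 ⟨v, Finset.mem_filter.2 ⟨Finset.mem_univ _, h1, h2⟩,
      Finset.mem_filter.2 ⟨Finset.mem_univ _, h3⟩⟩
  have h1 : Fintype.card (Fin (8 * σ) → Fin (2 ^ j) → Fin m) ≤ ∑ v ∈ Q,
      (univ.filter fun G : Fin (8 * σ) → Fin (2 ^ j) → Fin m => 16 * of G v < 8 * σ).card := by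
    rw [← Finset.card_univ]
    exact (Finset.card_le_card hcov).trans Finset.card_biUnion_le
  have h2 : Fintype.card (Fin (8 * σ) → Fin (2 ^ j) → Fin m) * 2 ^ σ ≤
      Q.card * Fintype.card (Fin (8 * σ) → Fin (2 ^ j) → Fin m) := by
    refine (Nat.mul_le_mul_right _ h1).trans ?_
    rw [Finset.sum_mul, ← smul_eq_mul]
    refine Finset.sum_le_card_nsmul _ _ _ fun v hv => ?_
    obtain ⟨_, hv1, hv2⟩ := Finset.mem_filter.1 hv
    exact bad_level v hv1 hv2
  have h3 : Q.card ≤ (m + 1) ^ k := by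
    refine (Finset.card_le_card fun v hv => ?_).trans (card_light (m := m) k)
    obtain ⟨_, hv1, _⟩ := Finset.mem_filter.1 hv
    refine Finset.mem_filter.2 ⟨Finset.mem_univ _, ?_⟩
    have h4 : 2 ^ j * wtv v < 2 ^ j * (k + 1) := lt_of_le_of_lt hv1 hk
    have := lt_of_mul_lt_mul_left' h4
    omega
  have : Nonempty (Fin m) := ⟨⟨0, by omega⟩⟩
  have hpos : 0 < Fintype.card (Fin (8 * σ) → Fin (2 ^ j) → Fin m) := Fintype.card_pos
  have h4 : Q.card * Fintype.card (Fin (8 * σ) → Fin (2 ^ j) → Fin m) <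
      2 ^ σ * Fintype.card (Fin (8 * σ) → Fin (2 ^ j) → Fin m) :=
    Nat.mul_lt_mul_of_pos_right (lt_of_le_of_lt h3 hσ) hpos
  rw [mul_comm (2 ^ σ)] at h4
  omega

end

end Pool.Agent.KMS
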