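import Pool.Agent.KMN.Par
import Pool.Agent.KMS.HashCmp

/-! Nondeterministic programs with a stack for languages that have, on a subcube, slices without large
rectangles. -/

namespace Pool.Agent.KMS

open Finset Pool.Agent.SemRO Pool.Agent.KNL Pool.Agent.KD Pool.Agent.KE Pool.Agent.KH
open Pool.Agent.KQ (SbpB)
open Pool.Agent.KMN (oo nd_block oo_disj)

section
variable {n m N : ℕ}

open Classical in
/-- **The inequality behind the lower bound**, for a set `G` of values of the blocks whose slices have no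
large rectangles. -/
theorem nd_avgG {κ B L Tm S : ℕ} (hcore : SbpB κ B n) (hm : 0 < m) {pos : Fin m → Fin n → Fin N}
    (hpos : ∀ b b' i i', pos b i = pos b' i' → b = b' ∧ i = i') (G : (Fin m → Fin n → Bool) → Prop)
    (hne : ∃ X, G X) {c : ℝ} (hc0 : 0 ≤ c)
    (hc : ∀ b X, G X → c ≤ ((univ.filter fun x => G (Function.update X b x)).card : ℝ))
    (hrf : ∀ b X, G X → RectFree {x | G (Function.update X b x)} L) (hL : (L : ℝ) ≤ Real.exp ((n : ℝ) / B))
    (Lg : List Bool → Prop) (z0 : Fin N → Bool)
    (hz : ∀ X, Lg (List.ofFn (wd pos z0 X)) ↔ G X) (hT : Tm ≤ κ * n * m)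
    (ι : Type) [Fintype ι] (w : ι → ℝ) (V Γ : ι → Type) [∀ i, Fintype (V i)]
    (P : ∀ i, SBP (V i) (Γ i) (Fin N)) (hw0 : ∀ i, 0 ≤ w i) (hw1 : ∑ i, w i = 1)
    (hP : ∀ i, Fintype.card (V i) ≤ 2 ^ S ∧ ∀ y l, (P i).AccWalk y l → Lg (List.ofFn y))
    {ρ : ℝ} (hρ : ∀ y, Lg (List.ofFn y) →
      ρ ≤ ∑ i, if ∃ l, (P i).AccWalk y l ∧ l.length ≤ Tm then w i else 0) :
    ρ * c ≤ m * (((2 : ℝ) ^ S + n) ^ (2 * B) * (2 ^ n * Real.exp (-((n : ℝ) / B)))) := by
  set R := ((2 : ℝ) ^ S + n) ^ (2 * B) * (2 ^ n * Real.exp (-((n : ℝ) / B))) with hR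
  have hR0 : 0 ≤ R := by positivity
  obtain ⟨Z, hZ⟩ : ∃ Z : ℝ, Z = ∑ X : Fin m → Fin n → Bool, if G X then (1 : ℝ) else 0 := ⟨_, rfl⟩
  have hZ0 : 0 < Z := by
    obtain ⟨X, hX⟩ := hne
    rw [hZ]
    refine lt_of_lt_of_le one_pos ?_
    refine le_trans ?_ (Finset.single_le_sum (f := fun X => if G X then (1 : ℝ) else 0)
      (fun X _ => by split_ifs <;> norm_num) (Finset.mem_univ X))
    rw [if_pos hX]
  obtain ⟨φ, hφ⟩ : ∃ φ : ι → Fin m → (Fin m → Fin n → Bool) → ℝ, φ = fun i b X =>
    if G X ∧ ∃ l, (P i).AccWalk (wd pos z0 X) l ∧ cnt (oo (pos b)) l ≤ κ * n then (1 : ℝ) else 0 := ⟨_, rfl⟩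
  have hφ0 : ∀ i b X, 0 ≤ φ i b X := by
    intro i b X
    rw [hφ]
    simp only
    split_ifs <;> norm_num
  -- one program and one block
  have h1 : ∀ i b, (∑ X, φ i b X) * c ≤ Z * R := by
    intro i b
    have h2 : ∀ X, (∑ x, φ i b (Function.update X b x)) * c ≤
        (∑ x, if G (Function.update X b x) then (1 : ℝ) else 0) * R := by
      intro X
      by_cases hX : ∃ x, G (Function.update X b x)
      · obtain ⟨x0, hx0⟩ := hX
        have hup : ∀ x, Function.update (Function.update X b x0) b x = Function.update X b x :=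
          fun x => Function.update_idem _ _ _
        have h3 := hc b _ hx0
        have h4 := hrf b _ hx0
        simp only [hup] at h3 h4
        have h5 : (∑ x, φ i b (Function.update X b x)) ≤ R := by
          rw [hφ]
          simp only
          rw [Finset.sum_boole]
          have h6 := nd_block hcore (pos b) (P i) (wd pos z0 X) {x | G (Function.update X b x)} (L := L) (by
              intro x l hl
              rw [extend_wd hpos] at hl
              exact (hz _).1 ((hP i).2 _ _ hl)) h4 hL
            (univ.filter fun x => G (Function.update X b x) ∧ ∃ l,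
              (P i).AccWalk (wd pos z0 (Function.update X b x)) l ∧ cnt (oo (pos b)) l ≤ κ * n) (by
              intro x hx
              rw [extend_wd hpos]
              exact (Finset.mem_filter.1 hx).2.2)
          refine h6.trans ?_
          rw [hR]
          refine mul_le_mul_of_nonneg_right (pow_le_pow_left₀ (by positivity) ?_ _) (by positivity)
          have : (Fintype.card (V i) : ℝ) ≤ 2 ^ S := by exact_mod_cast (hP i).1
          linarith
        rw [Finset.sum_boole]
        calc (∑ x, φ i b (Function.update X b x)) * c ≤ R * c := mul_le_mul_of_nonneg_right h5 hc0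
          _ ≤ R * ((univ.filter fun x => G (Function.update X b x)).card : ℝ) :=
            mul_le_mul_of_nonneg_left h3 hR0
          _ = _ := mul_comm _ _
      · push Not at hX
        have h3 : ∀ x, φ i b (Function.update X b x) = 0 := by
          intro x
          rw [hφ]
          simp only
          rw [if_neg fun h => hX x h.1]
        rw [Finset.sum_congr rfl fun x _ => h3 x, Finset.sum_const_zero, zero_mul]
        refine mul_nonneg (Finset.sum_nonneg fun x _ => ?_) hR0
        split_ifs <;> norm_num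
    have h3 : (∑ X, ∑ x, φ i b (Function.update X b x)) * c ≤
        (∑ X : Fin m → Fin n → Bool, ∑ x, if G (Function.update X b x) then (1 : ℝ) else 0) * R := by
      rw [Finset.sum_mul, Finset.sum_mul]
      exact Finset.sum_le_sum fun X _ => h2 X
    rw [sum_upd, sum_upd b fun X => if G X then (1 : ℝ) else 0, ← hZ] at h3
    have h4 : (2 : ℝ) ^ n * ((∑ X, φ i b X) * c) ≤ 2 ^ n * (Z * R) := by linarith
    exact le_of_mul_le_mul_left h4 (by positivity)
  -- all programs and all blocks
  have h2 : ∀ X, (if G X then (1 : ℝ) else 0) * ρ ≤ ∑ i, w i * ∑ b, φ i b X := by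
    intro X
    by_cases hX : G X
    · rw [if_pos hX, one_mul]
      refine (hρ _ ((hz X).2 hX)).trans ?_
      refine Finset.sum_le_sum fun i _ => ?_
      have hb0 : 0 ≤ ∑ b, φ i b X := Finset.sum_nonneg fun b _ => hφ0 i b X
      split_ifs with h
      · obtain ⟨l, hl, hlen⟩ := h
        obtain ⟨b, hb⟩ := exists_rare hm (fun b => oo (pos b)) (oo_disj hpos) l hlen
        have hb' : cnt (oo (pos b)) l ≤ κ * n := by
          have : cnt (oo (pos b)) l * m ≤ κ * n * m := hb.trans hT
          exact Nat.le_of_mul_le_mul_right this hm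
        have h3 : (1 : ℝ) ≤ ∑ b, φ i b X := by
          refine le_trans ?_ (Finset.single_le_sum (f := fun b => φ i b X) (fun b _ => hφ0 i b X)
            (Finset.mem_univ b))
          rw [hφ]
          simp only
          rw [if_pos ⟨hX, l, hl, hb'⟩]
        have := mul_le_mul_of_nonneg_left h3 (hw0 i)
        linarith
      · exact mul_nonneg (hw0 i) hb0
    · rw [if_neg hX, zero_mul]
      exact Finset.sum_nonneg fun i _ => mul_nonneg (hw0 i) (Finset.sum_nonneg fun b _ => hφ0 i b X)
  have h3 : Z * ρ ≤ ∑ i, w i * ∑ b, ∑ X, φ i b X := by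
    have h4 : Z * ρ ≤ ∑ X, ∑ i, w i * ∑ b, φ i b X := by
      rw [hZ, Finset.sum_mul]
      exact Finset.sum_le_sum fun X _ => h2 X
    refine h4.trans (le_of_eq ?_)
    rw [Finset.sum_comm]
    refine Finset.sum_congr rfl fun i _ => ?_
    rw [← Finset.mul_sum, Finset.sum_comm]
  have h5 : (∑ i, w i * ∑ b : Fin m, ∑ X, φ i b X) * c ≤ Z * (m * R) := by
    rw [Finset.sum_mul]
    calc _ ≤ ∑ i, w i * (Z * (m * R)) := by
          refine Finset.sum_le_sum fun i _ => ?_
          rw [mul_assoc]
          refine mul_le_mul_of_nonneg_left ?_ (hw0 i)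
          rw [Finset.sum_mul]
          calc _ ≤ ∑ _b : Fin m, Z * R := Finset.sum_le_sum fun b _ => h1 i b
            _ = _ := by
              rw [Finset.sum_const, Finset.card_univ, Fintype.card_fin, nsmul_eq_mul]
              ring
      _ = _ := by rw [← Finset.sum_mul, hw1, one_mul]
  have h6 : Z * (ρ * c) ≤ Z * (m * R) := by
    calc Z * (ρ * c) = Z * ρ * c := by ring
      _ ≤ _ := mul_le_mul_of_nonneg_right h3 hc0
      _ ≤ _ := h5
  exact le_of_mul_le_mul_left h6 hZ0

/-- a translate of a set without large rectangles -/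
theorem rf_xr {F : Set (Fin n → Bool)} {L : ℕ} (h : RectFree F L) (c : Fin n → Bool) :
    RectFree {x | xr x c ∈ F} L := by
  intro A u v hu hv
  obtain ⟨i, j, hij⟩ := h A (fun i => xr (u i) c) (fun j => xr (v j) c) (by
      intro i j hne
      obtain ⟨x, hx, hx'⟩ := hu i j hne
      refine ⟨x, hx, fun h => hx' ?_⟩
      unfold Pool.Agent.KH.xr at h
      exact (Bool.xor_left_inj.1 h)) (by
      intro i j hne
      obtain ⟨x, hx, hx'⟩ := hv i j hne
      refine ⟨x, hx, fun h => hx' ?_⟩
      unfold Pool.Agent.KH.xr at h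
      exact (Bool.xor_left_inj.1 h))
  refine ⟨i, j, fun hmem => hij ?_⟩
  rw [mix_xr]
  exact hmem

/-- the number of elements of a translate -/
theorem card_xr {F : (Fin n → Bool) → Prop} {c : Fin n → Bool} {A A' : Finset (Fin n → Bool)}
    (hA : ∀ x, x ∈ A ↔ F x) (hA' : ∀ x, x ∈ A' ↔ F (xr x c)) : A.card = A'.card := by
  refine Finset.card_nbij' (fun x => xr x c) (fun x => xr x c) ?_ ?_ ?_ ?_
  · intro x hx
    have := (hA x).1 (Finset.mem_coe.1 hx)
    refine Finset.mem_coe.2 ((hA' _).2 ?_)
    rw [xr_xr]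
    exact this
  · intro x hx
    exact Finset.mem_coe.2 ((hA _).2 ((hA' x).1 (Finset.mem_coe.1 hx)))
  · intro x _
    exact xr_xr _ _
  · intro x _
    exact xr_xr _ _

end

end Pool.Agent.KMS
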