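import Pool.Agent.KMS.NDPar

/-! Nondeterministic programs and the circuit value problem. -/

namespace Pool.Agent.KMS

open Finset Pool.Agent.SemRO Pool.Agent.KNL Pool.Agent.KD Pool.Agent.KE Pool.Agent.KH Pool.Agent.KCV

/-- **The circuit value problem contains functions with few gates, of the sum of many blocks.** -/
theorem sumB_agrees {L : List Bool → Prop} (hL : Agrees L) (N : ℕ) : SumB 320 6 1 L N := by
  intro n G hn1 hnG hG hN
  obtain ⟨l, hl⟩ : ∃ l, l = len N := ⟨_, rfl⟩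
  rw [← hl, pow_one] at hN
  rw [← hl] at hG
  have hl1 : 1 ≤ l := by rw [hl]; exact len_pos N
  obtain ⟨t, ht⟩ : ∃ t, t = l / 2 := ⟨_, rfl⟩
  obtain ⟨h, hh⟩ : ∃ h, h = 2 ^ t := ⟨_, rfl⟩
  obtain ⟨B, hB⟩ : ∃ B, B = N / (40 * l * n) := ⟨_, rfl⟩
  have hl2 : 1 ≤ l ^ 2 := Nat.one_le_pow _ _ hl1
  have hN3 : 2 ^ 17 * l ^ 2 ≤ N := by
    calc 2 ^ 17 * l ^ 2 = 2 ^ 6 * 1 * (2 ^ 11 * l ^ 2) := by ring
      _ ≤ 2 ^ 6 * l * G := by gcongr
      _ ≤ N := hN
  have hN17 : 2 ^ 17 ≤ N := le_trans (by omega) hN3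
  have hlog : 17 ≤ Nat.log 2 N := Nat.le_log_of_pow_le (by norm_num) hN17
  have hl18 : 18 ≤ l := by rw [hl]; unfold len; omega
  have hlG : 8 * l * G ≤ N := by
    refine le_trans ?_ hN
    exact Nat.mul_le_mul_right _ (Nat.mul_le_mul_right _ (by norm_num))
  have hn40 : 40 * l * n ≤ N := by
    refine le_trans ?_ hN
    gcongr
    norm_num
  have hB1 : 1 ≤ B := by
    rw [hB, Nat.le_div_iff_mul_le (by positivity), one_mul]
    exact hn40
  have hBn : 40 * l * n * B ≤ N := by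
    rw [hB, mul_comm]
    exact Nat.div_mul_le_self _ _
  have hBn' : N < 40 * l * n * (B + 1) := by
    rw [hB]
    exact Nat.lt_mul_div_succ _ (by positivity)
  have hh2 : h ^ 2 ≤ 2 * N := by
    rw [hh, ← pow_mul]
    calc 2 ^ (t * 2) ≤ 2 ^ (Nat.log 2 N + 1) := by
          refine Nat.pow_le_pow_right (by norm_num) ?_
          have h2 : l = Nat.log 2 N + 1 := hl
          omega
      _ = 2 * 2 ^ Nat.log 2 N := by rw [pow_succ]; ring
      _ ≤ 2 * N := Nat.mul_le_mul_left _ (Nat.pow_log_le_self 2 (by omega))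
  have hh3 : 16 * l * (h + 1) ≤ N := by
    have h1 : (h + 1) ^ 2 ≤ 8 * N := by
      have h2 : (h + 1) ^ 2 ≤ 2 * h ^ 2 + 2 := by
        have : (h + 1) ^ 2 = h ^ 2 + 2 * h + 1 := by ring
        have h4 : 2 * h ≤ h ^ 2 + 1 := by
          zify
          nlinarith [sq_nonneg ((h : ℤ) - 1)]
        omega
      omega
    have h3 : (16 * l * (h + 1)) ^ 2 ≤ N ^ 2 := by
      calc (16 * l * (h + 1)) ^ 2 = 256 * l ^ 2 * (h + 1) ^ 2 := by ring
        _ ≤ 256 * l ^ 2 * (8 * N) := Nat.mul_le_mul_left _ h1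
        _ = 2048 * l ^ 2 * N := by ring
        _ ≤ N * N := by
          refine Nat.mul_le_mul_right _ ?_
          calc 2048 * l ^ 2 ≤ 2 ^ 17 * l ^ 2 := Nat.mul_le_mul_right _ (by norm_num)
            _ ≤ N := hN3
        _ = N ^ 2 := by ring
    exact (Nat.pow_le_pow_iff_left (by norm_num)).1 h3
  have ht2 : 2 ≤ t := by omega
  have htl : t < len N := by omega
  have hM : 2 ^ (t + 1) + 5 * (B * n) + G + 2 ≤ N / (2 * len N) := by
    rw [← hl, Nat.le_div_iff_mul_le (by positivity)]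
    have e1 : (2 ^ (t + 1) + 5 * (B * n) + G + 2) * (2 * l) * 4 =
        16 * l * (h + 1) + 40 * l * n * B + 8 * l * G := by
      rw [pow_succ, ← hh]
      ring
    omega
  obtain ⟨pos, hpos, hz⟩ := circ_blocks ht2 htl hB1 hn1 hM
  refine ⟨B * t, Nat.mul_pos hB1 (by omega), ?_, id, pos, hpos, fun g hg => ?_⟩
  · have h1 : 40 * l * n * (B + 1) ≤ 80 * l * n * B := by
      have : B + 1 ≤ 2 * B := by omega
      calc 40 * l * n * (B + 1) ≤ 40 * l * n * (2 * B) := Nat.mul_le_mul_left _ this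
        _ = 80 * l * n * B := by ring
    have h2 : 80 * l * n * B ≤ 320 * (B * t * n) := by
      have : l ≤ 4 * t := by omega
      calc 80 * l * n * B ≤ 80 * (4 * t) * n * B :=
            Nat.mul_le_mul_right _ (Nat.mul_le_mul_right _ (Nat.mul_le_mul_left _ this))
        _ = 320 * (B * t * n) := by ring
    omega
  · obtain ⟨z0, hz0⟩ := hz g hg
    refine ⟨z0, fun X => ?_⟩
    rw [Function.comp_id, hL _ fun a => by rw [hz0 X a, hz0 X]]
    unfold Cvp
    rw [hz0 X]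

/-- **the lower bound for nondeterministic programs** for the language `L` with the constants `δ` and `x0`,
for distributions on nondeterministic programs with a stack that accept only words of `L`; for
`S ≤ N ^ (1 - ε)` this is `T ≥ c N (log N) ^ δ` -/
def HardN (δ x0 : ℝ) (L : List Bool → Prop) : Prop :=
  ∀ N S : ℕ, 1 ≤ S → x0 * (S * (len N : ℝ) ^ 5) ≤ N →
    ∀ (ι : Type) [Fintype ι] (w : ι → ℝ) (V Γ : ι → Type) [∀ i, Fintype (V i)]
      (P : ∀ i, SBP (V i) (Γ i) (Fin N)), (∀ i, 0 ≤ w i) → ∑ i, w i = 1 →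
      (∀ i, Fintype.card (V i) ≤ 2 ^ S ∧ ∀ y l, (P i).AccWalk y l → L (List.ofFn y)) →
      ∀ T : ℕ, (∀ y, L (List.ofFn y) →
        1 / 2 ^ S ≤ ∑ i, open Classical in if ∃ l, (P i).AccWalk y l ∧ l.length ≤ T then w i else 0) →
          N * Real.log (N / (S * (len N : ℝ) ^ 5)) ^ δ ≤ T

/-- **Languages with many functions with few gates are hard for nondeterministic programs.** -/
theorem hardN_sum (K a e : ℕ) (hK : 1 ≤ K) (he : e ≤ 2) : ∃ δ x0 : ℝ, 0 < δ ∧ 1 ≤ x0 ∧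
    ∀ L : List Bool → Prop, (∀ N, SumB K a e L N) → HardN δ x0 L := by
  obtain ⟨δ, x0, hδ, hx0, h⟩ := nd_sum K a e hK
  refine ⟨δ, x0, hδ, hx0, ?_⟩
  intro L hL N S hS hx ι _ w V Γ _ P hw0 hw1 hP T hT
  have hSr : (1 : ℝ) ≤ S := by exact_mod_cast hS
  have hS0 : (0 : ℝ) < S := by linarith
  have hl1 : (1 : ℝ) ≤ len N := by exact_mod_cast len_pos N
  have hpow : (len N : ℝ) ^ (e + 3) ≤ (len N : ℝ) ^ 5 := pow_le_pow_right₀ hl1 (by omega)
  have hd : (0 : ℝ) < S * (len N : ℝ) ^ (e + 3) := by positivity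
  have hd5 : (0 : ℝ) < S * (len N : ℝ) ^ 5 := by positivity
  have hle : S * (len N : ℝ) ^ (e + 3) ≤ S * (len N : ℝ) ^ 5 := mul_le_mul_of_nonneg_left hpow hS0.le
  have hN0 : (0 : ℝ) ≤ N := Nat.cast_nonneg _
  refine le_trans ?_ (h L N S hS ((mul_le_mul_of_nonneg_left hle (by linarith)).trans hx) (hL N) ι w V Γ P
    hw0 hw1 hP T hT)
  refine mul_le_mul_of_nonneg_left ?_ hN0
  have h1 : (1 : ℝ) ≤ N / (S * (len N : ℝ) ^ 5) := by
    rw [le_div_iff₀ hd5]
    refine le_trans ?_ hx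
    exact mul_le_mul_of_nonneg_right hx0 hd5.le
  refine Real.rpow_le_rpow (Real.log_nonneg h1) ?_ hδ.le
  exact Real.log_le_log (by linarith) (div_le_div_of_nonneg_left hN0 hd hle)

/-- **One pair of constants for all languages that agree with the circuit value problem, and for their
complements.** -/
theorem hardN_circ : ∃ δ x0 : ℝ, 0 < δ ∧ 1 ≤ x0 ∧ ∀ L : List Bool → Prop,
    (Agrees L ∨ Agrees fun y => ¬ L y) → HardN δ x0 L := by
  obtain ⟨δ, x0, hδ, hx0, h⟩ := hardN_sum 320 7 1 (by norm_num) (by norm_num)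
  refine ⟨δ, x0, hδ, hx0, ?_⟩
  rintro L (hL | hL)
  · exact h L fun N => (sumB_agrees hL N).mono (by norm_num)
  · refine h L fun N => ?_
    have h1 := (sumB_agrees hL N).compl
    have e1 : (fun y => ¬¬L y) = L := by
      funext y
      exact propext not_not
    rwa [e1] at h1

end Pool.Agent.KMS
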