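import Pool.Agent.KMS.NDCirc
import Pool.Agent.KST.HWord
import Pool.Agent.KST.Time
import Pool.Agent.KST.Horn

/-! Nondeterministic programs and satisfiability. -/

namespace Pool.Agent.KMS

open Finset Pool.Agent.SemRO Pool.Agent.KNL Pool.Agent.KD Pool.Agent.KE Pool.Agent.KH Pool.Agent.KCV
open Pool.Agent.KST (AgreesH AgreesF nc small_tab horn_blocks phi)

/-- **Horn formulas contain functions with few gates, of the sum of many blocks.** -/
theorem sumB_horn {L : List Bool → Prop} (hL : AgreesH L) (N : ℕ) : SumB 1152 13 1 L N := by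
  intro n G hn1 hnG hG hN
  obtain ⟨l, hl⟩ : ∃ l, l = len N := ⟨_, rfl⟩
  rw [← hl, pow_one] at hN
  rw [← hl] at hG
  have hl1 : 1 ≤ l := by rw [hl]; exact len_pos N
  have hl2 : 1 ≤ l ^ 2 := Nat.one_le_pow _ _ hl1
  have hN24 : 2 ^ 24 ≤ N := by
    calc 2 ^ 24 = 2 ^ 13 * 1 * (2 ^ 11 * 1) := by norm_num
      _ ≤ 2 ^ 13 * l * (2 ^ 11 * l ^ 2) := by gcongr
      _ ≤ 2 ^ 13 * l * G := Nat.mul_le_mul_left _ hG
      _ ≤ N := hN
  have hlog : 24 ≤ Nat.log 2 N := Nat.le_log_of_pow_le (by norm_num) hN24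
  have hl25 : 25 ≤ l := by rw [hl]; unfold len; omega
  obtain ⟨h, hh⟩ : ∃ h, h = l / 3 := ⟨_, rfl⟩
  have h8 : 8 ≤ h := by omega
  have htab := small_tab h8 (N := N) (by omega) (by omega)
  -- the number of clauses
  obtain ⟨M, hM⟩ : ∃ M, M = nc N := ⟨_, rfl⟩
  rw [← hM] at htab
  have h2h : 8 * 2 ^ h ≤ 2 ^ h * h := by
    rw [mul_comm]
    exact Nat.mul_le_mul_left _ h8
  have hGM : 64 * G ≤ M := by
    rw [hM]
    unfold nc
    rw [← hl, Nat.le_div_iff_mul_le (by omega)]
    calc 64 * G * (3 * (l + 1)) ≤ 64 * G * (6 * l) := Nat.mul_le_mul_left _ (by omega)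
      _ = 384 * l * G := by ring
      _ ≤ 2 ^ 13 * l * G := Nat.mul_le_mul_right _ (Nat.mul_le_mul_right _ (by norm_num))
      _ ≤ N := hN
  obtain ⟨B, hB⟩ : ∃ B, B = M / (16 * n) := ⟨_, rfl⟩
  have hB1 : 1 ≤ B := by
    rw [hB, Nat.le_div_iff_mul_le (by positivity), one_mul]
    omega
  have hBn : 16 * (B * n) ≤ M := by
    have := Nat.div_mul_le_self M (16 * n)
    rw [← hB] at this
    calc 16 * (B * n) = B * (16 * n) := by ring
      _ ≤ M := this
  have hnBn : n ≤ B * n := Nat.le_mul_of_pos_left _ (by omega)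
  have hBn' : M ≤ 32 * (B * n) := by
    have h6 := Nat.lt_mul_div_succ M (show 0 < 16 * n by omega)
    rw [← hB] at h6
    have e1 : 16 * n * (B + 1) = 16 * (B * n) + 16 * n := by ring
    omega
  have h9 : N < 3 * (l + 1) * (M + 1) := by
    rw [hM, hl]
    unfold nc
    exact Nat.lt_mul_div_succ _ (by omega)
  have h10 : 3 * M ≤ N := by
    have : M * (3 * (l + 1)) ≤ N := by
      rw [hM, hl]
      exact Nat.div_mul_le_self _ _
    calc 3 * M = M * 3 := by ring
      _ ≤ M * (3 * (l + 1)) := Nat.mul_le_mul_left _ (by omega)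
      _ ≤ N := this
  have h11 : N < 2 ^ len N := by
    unfold len
    exact Nat.lt_pow_succ_log_self (by norm_num) N
  have hhh : h + 1 ≤ len N := by omega
  have hMM : 2 * (B * n) ≤ nc N := by rw [← hM]; omega
  refine ⟨B * h, Nat.mul_pos hB1 (by omega), ?_, phi h n B, Pool.Agent.KST.pos hhh hMM,
    Pool.Agent.KST.pos_inj hhh hMM, fun g hg => ?_⟩
  · have h13 : 3 * (l + 1) ≤ 18 * h := by omega
    calc N ≤ 3 * (l + 1) * (M + 1) := h9.le
      _ ≤ 18 * h * (2 * M) := Nat.mul_le_mul h13 (by omega)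
      _ ≤ 18 * h * (2 * (32 * (B * n))) := Nat.mul_le_mul_left _ (Nat.mul_le_mul_left _ hBn')
      _ = 1152 * (B * h * n) := by ring
  · obtain ⟨z0, hz0⟩ := horn_blocks hg hhh hMM hB1 hn1 (by omega) (by rw [← hM]; omega)
    exact ⟨z0, fun X => hz0 X L hL⟩

/-- The language or its complement agrees with the circuit value problem on the circuits whose value does not
depend on the variables, or with satisfiability on the Horn formulas in which all variables have even
numbers. -/
def AgreesN (L : List Bool → Prop) : Prop :=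
  (Agrees L ∨ AgreesH L) ∨ (Agrees (fun y => ¬ L y) ∨ AgreesH fun y => ¬ L y)

/-- **One pair of constants for all languages.** -/
theorem hardN_all : ∃ δ x0 : ℝ, 0 < δ ∧ 1 ≤ x0 ∧ ∀ L : List Bool → Prop, AgreesN L → HardN δ x0 L := by
  obtain ⟨δ, x0, hδ, hx0, h⟩ := hardN_sum 1152 14 1 (by norm_num) (by norm_num)
  have hK : ∀ {L N}, SumB 320 6 1 L N → SumB 1152 6 1 L N := by
    intro L N hS n G hn hnG hG hN
    obtain ⟨m, hm, hK, r⟩ := hS n G hn hnG hG hN
    exact ⟨m, hm, hK.trans (Nat.mul_le_mul_right _ (by norm_num)), r⟩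
  have hnot : ∀ L : List Bool → Prop, (fun y => ¬¬L y) = L := by
    intro L
    funext y
    exact propext not_not
  refine ⟨δ, x0, hδ, hx0, ?_⟩
  rintro L ((hL | hL) | (hL | hL))
  · exact h L fun N => (hK (sumB_agrees hL N)).mono (by norm_num)
  · exact h L fun N => (sumB_horn hL N).mono (by norm_num)
  · refine h L fun N => ?_
    have h1 := (hK (sumB_agrees hL N)).compl
    rw [hnot] at h1
    exact h1.mono (by norm_num)
  · refine h L fun N => ?_
    have h1 := (sumB_horn hL N).compl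
    rwa [hnot] at h1

end Pool.Agent.KMS
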