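import Pool.Agent.KMS.NDAbs
import Pool.Agent.KCV.Fin
import Pool.Agent.KST.Relab

/-! The choice of the parameters: time `N (log (N / S)) ^ δ` for nondeterministic programs. -/

namespace Pool.Agent.KMS

open Finset Pool.Agent.SemRO Pool.Agent.KNL Pool.Agent.KD Pool.Agent.KE Pool.Agent.KH Pool.Agent.KCV
open Pool.Agent.KQ (SbpB sbp_quant)
open Pool.Agent.KMN (choose_passes nd_num)
open Pool.Agent.KST (relab pull pull_ofFn walk_relab walk_of_relab)

/-- On a subcube, up to the relabelling `φ` of the letters, the language is a function `g` of the sum of many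
blocks of length `n`, for each `g` that is computed by few gates. -/
def SumB (K a e : ℕ) (L : List Bool → Prop) (N : ℕ) : Prop :=
  ∀ n G : ℕ, 1 ≤ n → n ≤ G → 2 ^ 11 * len N ^ 2 ≤ G → 2 ^ a * len N ^ e * G ≤ N →
    ∃ m, 1 ≤ m ∧ N ≤ K * (m * n) ∧ ∃ (φ : Fin N → Fin N) (pos : Fin m → Fin n → Fin N),
      (∀ b b' i i', pos b i = pos b' i' → b = b' ∧ i = i') ∧
      ∀ g : BF n, Cmp n G g → ∃ z0 : Fin N → Bool, ∀ X,
        L (List.ofFn (wd pos z0 X ∘ φ)) ↔ g (xs X) = true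

theorem SumB.compl {K a e : ℕ} {L : List Bool → Prop} {N : ℕ} (h : SumB K a e L N) :
    SumB K (a + 1) e (fun y => ¬ L y) N := by
  intro n G hn hnG hG hN
  obtain ⟨m, hm, hK, φ, pos, hpos, hz⟩ := h n (G + 1) hn (by omega) (by omega) (by
    refine le_trans ?_ hN
    calc 2 ^ a * len N ^ e * (G + 1) ≤ 2 ^ a * len N ^ e * (2 * G) := Nat.mul_le_mul_left _ (by omega)
      _ = 2 ^ (a + 1) * len N ^ e * G := by ring)
  refine ⟨m, hm, hK, φ, pos, hpos, fun g hg => ?_⟩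
  obtain ⟨L1, h1, h2⟩ := hg
  obtain ⟨L2, h3, h4⟩ := ext_not h1.1 h2
  obtain ⟨z0, hz0⟩ := hz (fun x => !(g x)) ⟨L2, h1.trans h3, h4⟩
  refine ⟨z0, fun X => ?_⟩
  show ¬ L (List.ofFn (wd pos z0 X ∘ φ)) ↔ _
  rw [hz0 X]
  cases g (xs X) <;> simp

theorem SumB.mono {K a e a' : ℕ} {L : List Bool → Prop} {N : ℕ} (h : SumB K a e L N) (ha : a ≤ a') :
    SumB K a' e L N := by
  intro n G hn hnG hG hN
  refine h n G hn hnG hG (le_trans ?_ hN)
  exact Nat.mul_le_mul_right _ (Nat.mul_le_mul_right _ (Nat.pow_le_pow_right (by norm_num) ha))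

open Classical in
/-- some hash value is popular -/
theorem exists_pop {n r : ℕ} (H : (Fin n → Bool) → Fin r → ZMod 2) :
    ∃ σ : Fin r → ZMod 2, 2 ^ n ≤ 2 ^ r * (univ.filter fun x : Fin n → Bool => H x = σ).card := by
  by_contra hcon
  push Not at hcon
  have hσ : Fintype.card (Fin r → ZMod 2) = 2 ^ r := by
    rw [Fintype.card_fun, ZMod.card, Fintype.card_fin]
  have h2 : Fintype.card (Fin n → Bool) ≤ ∑ σ : Fin r → ZMod 2,
      (univ.filter fun x : Fin n → Bool => H x = σ).card := by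
    rw [← Finset.card_univ]
    refine (Finset.card_le_card ?_).trans Finset.card_biUnion_le
    intro x _
    exact Finset.mem_biUnion.2 ⟨H x, Finset.mem_univ _, Finset.mem_filter.2 ⟨Finset.mem_univ _, rfl⟩⟩
  have h3 : 2 ^ r * ∑ σ : Fin r → ZMod 2, (univ.filter fun x : Fin n → Bool => H x = σ).card <
      2 ^ r * 2 ^ n := by
    rw [Finset.mul_sum]
    have h4 : ∑ σ : Fin r → ZMod 2, 2 ^ r * (univ.filter fun x : Fin n → Bool => H x = σ).card <
        ∑ _σ : Fin r → ZMod 2, 2 ^ n :=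
      Finset.sum_lt_sum_of_nonempty Finset.univ_nonempty fun σ _ => hcon σ
    refine h4.trans_le (le_of_eq ?_)
    rw [Finset.sum_const, Finset.card_univ, hσ, smul_eq_mul]
  have h5 := Nat.lt_of_mul_lt_mul_left h3
  rw [Fintype.card_fun, Fintype.card_bool, Fintype.card_fin] at h2
  omega

open Classical in
/-- **Nondeterministic programs for languages that contain functions with few gates.** -/
theorem nd_sum (K a e : ℕ) (hK : 1 ≤ K) : ∃ δ x0 : ℝ, 0 < δ ∧ 1 ≤ x0 ∧ ∀ (L : List Bool → Prop) (N S : ℕ),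
    1 ≤ S → x0 * (S * (len N : ℝ) ^ (e + 3)) ≤ N → SumB K a e L N →
    ∀ (ι : Type) [Fintype ι] (w : ι → ℝ) (V Γ : ι → Type) [∀ i, Fintype (V i)]
      (P : ∀ i, SBP (V i) (Γ i) (Fin N)), (∀ i, 0 ≤ w i) → ∑ i, w i = 1 →
      (∀ i, Fintype.card (V i) ≤ 2 ^ S ∧ ∀ y l, (P i).AccWalk y l → L (List.ofFn y)) →
      ∀ T : ℕ, (∀ y, L (List.ofFn y) →
        1 / 2 ^ S ≤ ∑ i, if ∃ l, (P i).AccWalk y l ∧ l.length ≤ T then w i else 0) →
          N * Real.log (N / (S * (len N : ℝ) ^ (e + 3))) ^ δ ≤ T := by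
  obtain ⟨c1, hc1⟩ := sbp_quant
  obtain ⟨δ, x0, hδ, hx0, hch⟩ := choose_passes ((K + 1) * c1 + (a + 37))
  refine ⟨δ, x0, hδ, hx0, ?_⟩
  intro L N S hS hx hL ι _ w V Γ _ P hw0 hw1 hP T hT
  by_contra hcon
  push Not at hcon
  have hSr : (1 : ℝ) ≤ S := by exact_mod_cast hS
  have hS0 : (0 : ℝ) < S := by linarith
  obtain ⟨l, hl⟩ : ∃ l, l = len N := ⟨_, rfl⟩
  have hl1 : 1 ≤ l := by rw [hl]; exact len_pos N
  have hlr : (1 : ℝ) ≤ l := by exact_mod_cast hl1
  rw [← hl] at hx hcon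
  have hd : (0 : ℝ) < S * (l : ℝ) ^ (e + 3) := by positivity
  obtain ⟨k, hk2, hkl, hk⟩ := hch (N / (S * (l : ℝ) ^ (e + 3))) (by rw [le_div_iff₀ hd]; exact hx)
  obtain ⟨κ, hκ⟩ : ∃ κ, κ = K * k := ⟨_, rfl⟩
  have hκ2 : 2 ≤ κ := by
    rw [hκ]
    calc 2 ≤ 1 * k := by omega
      _ ≤ K * k := Nat.mul_le_mul_right _ hK
  obtain ⟨B, hB⟩ : ∃ B, B = 2 ^ (κ ^ c1) := ⟨_, rfl⟩
  have hB1 : 1 ≤ B := by rw [hB]; exact Nat.one_le_two_pow
  -- the size of the constants
  have hκk : κ ≤ k ^ (K + 1) := by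
    have h1 : K ≤ k ^ K := (Nat.lt_pow_self (by omega)).le
    calc κ = K * k := hκ
      _ ≤ k ^ K * k := Nat.mul_le_mul_right _ h1
      _ = k ^ (K + 1) := by rw [← pow_succ]
  have hBk : 2 ^ (a + 32) * B ^ 5 ≤ 2 ^ (k ^ ((K + 1) * c1 + (a + 37))) := by
    have h1 : κ ^ c1 ≤ k ^ ((K + 1) * c1) := by
      rw [pow_mul]
      exact Nat.pow_le_pow_left hκk c1
    have h2 : 1 ≤ k ^ ((K + 1) * c1) := Nat.one_le_pow _ _ (by omega)
    have h3 : a + 37 ≤ k ^ (a + 37) := (Nat.lt_pow_self (by omega)).le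
    have h4 : (a + 32) + 5 * κ ^ c1 ≤ k ^ ((K + 1) * c1 + (a + 37)) := by
      rw [pow_add]
      calc (a + 32) + 5 * κ ^ c1 ≤ (a + 32) * k ^ ((K + 1) * c1) + 5 * k ^ ((K + 1) * c1) :=
            Nat.add_le_add (Nat.le_mul_of_pos_right _ (by omega)) (Nat.mul_le_mul_left _ h1)
        _ = k ^ ((K + 1) * c1) * (a + 37) := by ring
        _ ≤ _ := Nat.mul_le_mul_left _ h3
    calc 2 ^ (a + 32) * B ^ 5 = 2 ^ ((a + 32) + 5 * κ ^ c1) := by
          rw [hB, ← pow_mul, ← pow_add]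
          congr 1
          ring
      _ ≤ _ := Nat.pow_le_pow_right (by norm_num) h4
  have hNS : 2 ^ (a + 32) * B ^ 5 * (S * l ^ (e + 3)) ≤ N := by
    have h1 : ((2 ^ (a + 32) * B ^ 5 : ℕ) : ℝ) ≤ N / (S * (l : ℝ) ^ (e + 3)) := by
      refine le_trans ?_ hk
      exact_mod_cast hBk
    rw [le_div_iff₀ hd] at h1
    exact_mod_cast h1
  -- the length of the blocks
  obtain ⟨D, hD⟩ : ∃ D, D = 2 ^ (a + 19) * l ^ (e + 2) * B := ⟨_, rfl⟩
  have hD1 : 0 < D := by rw [hD]; positivity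
  obtain ⟨n, hn⟩ : ∃ n, n = N / D := ⟨_, rfl⟩
  have hnD : n * D ≤ N := by rw [hn]; exact Nat.div_mul_le_self _ _
  have hnS : 2 ^ 13 * B ^ 4 * (S * l) ≤ n := by
    rw [hn, Nat.le_div_iff_mul_le hD1]
    calc 2 ^ 13 * B ^ 4 * (S * l) * D = 2 ^ (a + 32) * B ^ 5 * (S * l ^ (e + 3)) := by
          rw [hD]
          ring
      _ ≤ N := hNS
  have hB4 : 1 ≤ B ^ 4 := Nat.one_le_pow _ _ (by omega)
  have hSl : S + l ≤ 2 * (S * l) := by
    have h1 : S ≤ S * l := Nat.le_mul_of_pos_right _ (by omega)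
    have h2 : l ≤ S * l := Nat.le_mul_of_pos_left _ (by omega)
    omega
  have hnS' : 1000 * B ^ 4 * (S + l) ≤ n := by
    refine le_trans ?_ hnS
    calc 1000 * B ^ 4 * (S + l) ≤ 1000 * B ^ 4 * (2 * (S * l)) := Nat.mul_le_mul_left _ hSl
      _ = 2000 * B ^ 4 * (S * l) := by ring
      _ ≤ _ := Nat.mul_le_mul_right _ (Nat.mul_le_mul_right _ (by norm_num))
  have hSl1 : 1 ≤ S * l := Nat.one_le_iff_ne_zero.2 (by positivity)
  have hn13 : 2 ^ 13 * B ^ 4 ≤ n := le_trans (Nat.le_mul_of_pos_right _ (by omega)) hnS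
  have hn1 : 1 ≤ n := le_trans (by omega) hn13
  have hB2 : B ^ 2 ≤ B ^ 4 := Nat.pow_le_pow_right (by omega) (by norm_num)
  have hBB : B ≤ B ^ 4 := Nat.le_self_pow (by norm_num) B
  -- hash functions
  obtain ⟨r, hr⟩ : ∃ r, r = n / (2 * B) := ⟨_, rfl⟩
  obtain ⟨s, hs⟩ : ∃ s, s = 8 * B := ⟨_, rfl⟩
  have hr1 : 2 * B * r ≤ n := by rw [hr]; exact Nat.mul_div_le _ _
  have hr2 : n < 2 * B * (r + 1) := by rw [hr]; exact Nat.lt_mul_div_succ _ (by omega)
  have hr3 : 3 ≤ r := by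
    rw [hr, Nat.le_div_iff_mul_le (by omega)]
    refine le_trans ?_ hn13
    omega
  have hsr : 2 * (s * n) + r < s * s * r := by
    rw [hs]
    have h1 : 2 * (8 * B * n) ≤ 32 * B ^ 2 * (r + 1) := by
      calc 2 * (8 * B * n) = 16 * B * n := by ring
        _ ≤ 16 * B * (2 * B * (r + 1)) := Nat.mul_le_mul_left _ hr2.le
        _ = _ := by ring
    have h2 : 8 * B * (8 * B) * r = 32 * B ^ 2 * r + 32 * B ^ 2 * r := by ring
    have h3 : 32 * B ^ 2 * (r + 1) = 32 * B ^ 2 * r + 32 * B ^ 2 := by ring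
    have h5 : 1 ≤ B ^ 2 := Nat.one_le_pow _ _ (by omega)
    have h4 : 32 * B ^ 2 + r < 32 * B ^ 2 * r := by
      obtain ⟨q, hq⟩ : ∃ q, r = q + 3 := ⟨r - 3, by omega⟩
      rw [hq]
      have h6 : q ≤ B ^ 2 * q := Nat.le_mul_of_pos_left _ (by omega)
      nlinarith
    omega
  obtain ⟨H, hH⟩ := exists_hash_cmp (m := n) (s := s) (r := r) hn1 hsr
  obtain ⟨σ, hσ⟩ := exists_pop H
  obtain ⟨hrf, hcmp⟩ := hH σ
  -- the number of gates
  obtain ⟨G, hG⟩ : ∃ G, G = 2 ^ 19 * l ^ 2 * B * n := ⟨_, rfl⟩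
  have hnN : n ≤ N := by rw [hn]; exact Nat.div_le_self _ _
  have hGle : 2 ^ 11 * (Nat.log 2 n + 2) ^ 2 * (n + r * s ^ 2) ≤ G := by
    have h1 : Nat.log 2 n + 2 ≤ 2 * l := by
      have h1 : Nat.log 2 n ≤ Nat.log 2 N := Nat.log_mono_right hnN
      have h2 : l = Nat.log 2 N + 1 := hl
      omega
    have h2 : n + r * s ^ 2 ≤ 64 * B * n := by
      have h3 : r * s ^ 2 ≤ 32 * B * n := by
        calc r * s ^ 2 = 32 * B * (2 * B * r) := by rw [hs]; ring
          _ ≤ 32 * B * n := Nat.mul_le_mul_left _ hr1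
      have h4 : n ≤ 32 * B * n := Nat.le_mul_of_pos_left _ (by omega)
      calc n + r * s ^ 2 ≤ 32 * B * n + 32 * B * n := Nat.add_le_add h4 h3
        _ = _ := by ring
    calc 2 ^ 11 * (Nat.log 2 n + 2) ^ 2 * (n + r * s ^ 2) ≤ 2 ^ 11 * (2 * l) ^ 2 * (64 * B * n) := by
          gcongr
      _ = G := by rw [hG]; ring
  have hl2 : 1 ≤ l ^ 2 := Nat.one_le_pow _ _ hl1
  have hnG : n ≤ G := by
    rw [hG]
    exact Nat.le_mul_of_pos_left _ (by positivity)
  have hG11 : 2 ^ 11 * l ^ 2 ≤ G := by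
    calc 2 ^ 11 * l ^ 2 = 2 ^ 11 * l ^ 2 * 1 * 1 := by ring
      _ ≤ 2 ^ 19 * l ^ 2 * B * n := by gcongr <;> norm_num
      _ = G := hG.symm
  have hGN : 2 ^ a * l ^ e * G ≤ N := by
    calc 2 ^ a * l ^ e * G = n * D := by
          rw [hG, hD]
          ring
      _ ≤ N := hnD
  rw [hl] at hG11 hGN
  obtain ⟨m, hm, hNK, φ, pos, hpos, hz⟩ := hL n G hn1 hnG hG11 hGN
  rw [← hl] at hG11 hGN
  obtain ⟨z0, hz0⟩ := hz (fun x => decide (H x = σ)) (by
    obtain ⟨L1, h1, h2⟩ := hcmp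
    exact ⟨L1, h1.mono hGle, h2⟩)
  -- the popular hash value
  obtain ⟨F, hF⟩ : ∃ F, F = univ.filter fun x : Fin n → Bool => H x = σ := ⟨_, rfl⟩
  rw [← hF] at hσ
  have hFr : (2 : ℝ) ^ n / 2 ^ r ≤ F.card := by
    rw [div_le_iff₀ (by positivity), mul_comm]
    exact_mod_cast hσ
  have hFne : ∃ x, H x = σ := by
    have h1 : 0 < F.card := by
      have h2 : (0 : ℝ) < F.card := lt_of_lt_of_le (by positivity) hFr
      exact_mod_cast h2
    obtain ⟨x, hx⟩ := Finset.card_pos.1 h1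
    rw [hF] at hx
    exact ⟨x, (Finset.mem_filter.1 hx).2⟩
  have hcore : SbpB κ B n := hc1 κ hκ2 B n (by rw [hB]) (by rw [← hB]; omega)
  have hBr : (1 : ℝ) ≤ B := by exact_mod_cast hB1
  have hL2 : ((2 ^ s : ℕ) : ℝ) ≤ Real.exp ((n : ℝ) / B) := by
    have h1 : ((2 ^ s : ℕ) : ℝ) ≤ Real.exp s := by
      push_cast
      calc (2 : ℝ) ^ s ≤ Real.exp 1 ^ s := pow_le_pow_left₀ (by norm_num) (by
            have := Real.add_one_le_exp 1
            linarith) s
        _ = Real.exp s := by rw [← Real.exp_nat_mul, mul_one]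
    refine h1.trans (Real.exp_le_exp.2 ?_)
    rw [le_div_iff₀ (by linarith)]
    have h2 : s * B ≤ n := by
      calc s * B = 8 * B ^ 2 := by rw [hs]; ring
        _ ≤ 2 ^ 13 * B ^ 4 := by gcongr <;> norm_num
        _ ≤ _ := hn13
    exact_mod_cast h2
  have hTm : T ≤ κ * n * m := by
    have h1 : (T : ℝ) ≤ N * k := hcon.le.trans (mul_le_mul_of_nonneg_left hkl (Nat.cast_nonneg _))
    have h2 : T ≤ N * k := by exact_mod_cast h1
    calc T ≤ N * k := h2
      _ ≤ K * (m * n) * k := Nat.mul_le_mul_right _ hNK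
      _ = _ := by rw [hκ]; ring
  have hsl : ∀ (b : Fin m) (X : Fin m → Fin n → Bool), ∀ x, (H (xs (Function.update X b x)) = σ) ↔
      H (Pool.Agent.KH.xr x (xs (Function.update X b fun _ => false))) = σ := by
    intro b X x
    rw [xs_update]
  have key := nd_avgG (κ := κ) (B := B) (L := 2 ^ s) (Tm := T) (S := S) hcore (by omega) hpos
    (fun X => H (xs X) = σ) (by
      obtain ⟨x, hx⟩ := hFne
      obtain ⟨c, hc⟩ : ∃ c, c = xs (Function.update (fun _ _ => false : Fin m → Fin n → Bool) ⟨0, by omega⟩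
        fun _ => false) := ⟨_, rfl⟩
      refine ⟨Function.update (fun _ _ => false) ⟨0, by omega⟩ (Pool.Agent.KH.xr x c), ?_⟩
      rw [xs_update, ← hc, xr_xr]
      exact hx) (c := (2 : ℝ) ^ n / 2 ^ r) (by positivity) (by
      intro b X _
      refine hFr.trans (le_of_eq ?_)
      exact congrArg Nat.cast (card_xr (F := fun x => H x = σ)
        (c := xs (Function.update X b fun _ => false)) (by
          intro x
          rw [hF, Finset.mem_filter]
          simp) (by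
          intro x
          simp only [Finset.mem_filter, Finset.mem_univ, true_and]
          exact hsl b X x))) (by
      intro b X _
      have h1 := rf_xr hrf (xs (Function.update X b fun _ => false))
      have e1 : {x | H (xs (Function.update X b x)) = σ} =
          {x | Pool.Agent.KH.xr x (xs (Function.update X b fun _ => false)) ∈ {x | H x = σ}} := by
        ext x
        exact hsl b X x
      rw [e1]
      exact h1) hL2 (pull φ L) z0 (by
      intro X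
      rw [pull_ofFn, hz0 X, decide_eq_true_iff]) hTm ι w V Γ (fun i => relab φ (P i)) hw0 hw1 (by
      intro i
      refine ⟨(hP i).1, fun y l hl => ?_⟩
      obtain ⟨l', _, hl'⟩ := walk_of_relab hl
      rw [pull_ofFn]
      exact (hP i).2 _ _ hl') (ρ := 1 / 2 ^ S) (by
      intro y hy
      rw [pull_ofFn] at hy
      refine (hT _ hy).trans (Finset.sum_le_sum fun i _ => ?_)
      split_ifs with h1 h2 h2
      · exact le_rfl
      · obtain ⟨l, hl, hlT⟩ := h1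
        exact absurd ⟨l.map φ, walk_relab hl, by rw [List.length_map]; exact hlT⟩ h2
      · exact hw0 i
      · exact le_rfl)
  -- the numbers
  have hmN : m ≤ N := by
    have h1 : Function.Injective fun b : Fin m => pos b ⟨0, by omega⟩ := fun b b' h => (hpos _ _ _ _ h).1
    have h2 := Fintype.card_le_of_injective _ h1
    rwa [Fintype.card_fin, Fintype.card_fin] at h2
  have hm2 : (m : ℝ) ≤ 2 ^ l := by
    have h1 : m ≤ 2 ^ l := by
      refine hmN.trans ?_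
      rw [hl]
      exact (Nat.lt_pow_succ_log_self (by norm_num) N).le
    exact_mod_cast h1
  refine nd_num (n := n) (S := S + l) (B := B) (r := r) hB1 (by omega) hnS' hr1 ?_
  have hR1 : ((2 : ℝ) ^ S + n) ^ (2 * B) * (2 ^ n * Real.exp (-((n : ℝ) / B))) ≤
      n * (((2 : ℝ) ^ (S + l) + n) ^ (2 * B) * (2 ^ n * Real.exp (-((n : ℝ) / B)))) := by
    have h1 : ((2 : ℝ) ^ S + n) ^ (2 * B) ≤ ((2 : ℝ) ^ (S + l) + n) ^ (2 * B) := by
      refine pow_le_pow_left₀ (by positivity) ?_ _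
      have := pow_le_pow_right₀ (show (1 : ℝ) ≤ 2 by norm_num) (show S ≤ S + l by omega)
      linarith
    have h2 : (1 : ℝ) ≤ n := by exact_mod_cast hn1
    calc ((2 : ℝ) ^ S + n) ^ (2 * B) * (2 ^ n * Real.exp (-((n : ℝ) / B))) ≤
          ((2 : ℝ) ^ (S + l) + n) ^ (2 * B) * (2 ^ n * Real.exp (-((n : ℝ) / B))) :=
          mul_le_mul_of_nonneg_right h1 (by positivity)
      _ ≤ _ := le_mul_of_one_le_left (by positivity) h2
  calc 1 / 2 ^ (S + l) * ((2 : ℝ) ^ n / 2 ^ r) = 1 / 2 ^ l * (1 / 2 ^ S * ((2 : ℝ) ^ n / 2 ^ r)) := by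
        rw [pow_add]
        field_simp
    _ ≤ 1 / 2 ^ l * (m * (((2 : ℝ) ^ S + n) ^ (2 * B) * (2 ^ n * Real.exp (-((n : ℝ) / B))))) :=
        mul_le_mul_of_nonneg_left key (by positivity)
    _ = m / 2 ^ l * (((2 : ℝ) ^ S + n) ^ (2 * B) * (2 ^ n * Real.exp (-((n : ℝ) / B)))) := by ring
    _ ≤ 1 * (((2 : ℝ) ^ S + n) ^ (2 * B) * (2 ^ n * Real.exp (-((n : ℝ) / B)))) := by
        refine mul_le_mul_of_nonneg_right ?_ (by positivity)
        rw [div_le_one (by positivity)]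
        exact hm2
    _ ≤ _ := by rw [one_mul]; exact hR1

end Pool.Agent.KMS
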